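import Pool.Agent.F32C.Data3

/-!
# F32: the machine theorem `SatThm` (helper80)

`sat_thm : SatThm`: the pattern of `Pool/Agent/F32/Pat.lean` is contradictory. The certificate is checked by the kernel.
-/

set_option autoImplicit false

namespace Pool.Agent.F32C.NC

open Pool.Agent.F32

section
variable {P : El 3 → R5}

lemma close (e1 e2 e3 e4 e5 e5' : El 3)
    (h : 0 < Dp P ![e1, e2, e3, e4, e5] * Dp P ![e1, e2, e3, e4, e5']) :
    sg P [nl e1, nl e2, nl e3, nl e4, nl e5] = sg P [nl e1, nl e2, nl e3, nl e4, nl e5'] := by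
  have h1 : dt P [nl e1, nl e2, nl e3, nl e4, nl e5] = Dp P ![e1, e2, e3, e4, e5] := by
    simp only [dt, lab_nl]
    rfl
  have h2 : dt P [nl e1, nl e2, nl e3, nl e4, nl e5'] = Dp P ![e1, e2, e3, e4, e5'] := by
    simp only [dt, lab_nl]
    rfl
  rw [Bool.eq_iff_iff, sg_true, sg_true, h1, h2]
  constructor
  · intro h3
    exact (pos_iff_pos_of_mul_pos h).1 h3
  · intro h3
    exact (pos_iff_pos_of_mul_pos h).2 h3

lemma cxp (hP : Pat P) (a b d e : Fin 3 × Fin 3) (k k' : Fin 3) (h : [a, b, d, e].Nodup) :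
    sg P [nl (.X a.1 a.2), nl (.X b.1 b.2), nl (.X d.1 d.2), nl (.X e.1 e.2), nl (.C k)] =
      sg P [nl (.X a.1 a.2), nl (.X b.1 b.2), nl (.X d.1 d.2), nl (.X e.1 e.2), nl (.C k')] :=
  close _ _ _ _ _ _ (hP.cx a b d e h k k')

lemma cyp (hP : Pat P) (a b d e : Fin 3 × Fin 3) (k k' : Fin 3) (h : [a, b, d, e].Nodup) :
    sg P [nl (.X a.1 a.2), nl (.X b.1 b.2), nl (.X d.1 d.2), nl (.Y e.1 e.2), nl (.C k)] =
      sg P [nl (.X a.1 a.2), nl (.X b.1 b.2), nl (.X d.1 d.2), nl (.Y e.1 e.2), nl (.C k')] :=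
  close _ _ _ _ _ _ (hP.cy a b d e h k k')

lemma xap (hP : Pat P) (r j i i' : Fin 3) (a b : Fin 3 × Fin 3) (h1 : a.1 ≠ r) (h2 : b.1 ≠ r)
    (h3 : a ≠ b) : sg P [nl .W, nl (.Y r j), nl (.X a.1 a.2), nl (.X b.1 b.2), nl (.X r i)] =
      sg P [nl .W, nl (.Y r j), nl (.X a.1 a.2), nl (.X b.1 b.2), nl (.X r i')] :=
  close _ _ _ _ _ _ (hP.xa r j i i' a b h1 h2 h3)

lemma xbp (hP : Pat P) (r j i i' : Fin 3) (a b : Fin 3 × Fin 3) (h1 : a.1 ≠ r) (h2 : b.1 ≠ r)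
    (h3 : a.1 ≠ b.1) : sg P [nl .W, nl (.Y r j), nl (.X a.1 a.2), nl (.Y b.1 b.2), nl (.X r i)] =
      sg P [nl .W, nl (.Y r j), nl (.X a.1 a.2), nl (.Y b.1 b.2), nl (.X r i')] :=
  close _ _ _ _ _ _ (hP.xb r j i i' a b h1 h2 h3)

lemma xcp (hP : Pat P) (r j i i' : Fin 3) (a b : Fin 3 × Fin 3) (h1 : a.1 ≠ r) (h2 : b.1 ≠ r)
    (h3 : a.1 ≠ b.1) : sg P [nl .W, nl (.Y r j), nl (.Y a.1 a.2), nl (.Y b.1 b.2), nl (.X r i)] =
      sg P [nl .W, nl (.Y r j), nl (.Y a.1 a.2), nl (.Y b.1 b.2), nl (.X r i')] :=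
  close _ _ _ _ _ _ (hP.xc r j i i' a b h1 h2 h3)

lemma fc {a b : List ℕ} {l : List (List ℕ × List ℕ)} (h : sg P a = sg P b)
    (t : ∀ q ∈ l, sg P q.1 = sg P q.2) : ∀ q ∈ (a, b) :: l, sg P q.1 = sg P q.2 := by
  intro q hq
  rcases List.mem_cons.1 hq with rfl | hq
  · exact h
  · exact t q hq

/-- the closeness pairs -/
theorem clp_ok (hP : Pat P) : ∀ q ∈ clp, sg P q.1 = sg P q.2 := by
  unfold clp
  refine fc (cyp hP (0, 0) (0, 1) (1, 0) (1, 1) 2 0 (by decide)) ?_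
  refine fc (xap hP 1 1 0 1 (0, 0) (0, 1) (by decide) (by decide) (by decide)) ?_
  refine fc (xap hP 1 0 1 0 (0, 0) (0, 1) (by decide) (by decide) (by decide)) ?_
  refine fc (xap hP 1 2 1 2 (0, 0) (0, 1) (by decide) (by decide) (by decide)) ?_
  refine fc (xap hP 1 1 2 1 (0, 0) (0, 1) (by decide) (by decide) (by decide)) ?_
  refine fc (xap hP 2 1 0 1 (0, 0) (0, 1) (by decide) (by decide) (by decide)) ?_
  refine fc (xap hP 2 0 1 0 (0, 0) (0, 1) (by decide) (by decide) (by decide)) ?_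
  refine fc (cyp hP (0, 0) (1, 0) (1, 1) (1, 2) 1 0 (by decide)) ?_
  refine fc (cyp hP (0, 0) (1, 0) (1, 1) (1, 2) 2 0 (by decide)) ?_
  refine fc (cyp hP (0, 0) (1, 0) (1, 1) (2, 0) 2 0 (by decide)) ?_
  refine fc (cyp hP (0, 0) (1, 0) (1, 2) (0, 1) 1 0 (by decide)) ?_
  refine fc (cyp hP (0, 0) (1, 0) (1, 2) (1, 1) 1 0 (by decide)) ?_
  refine fc (cyp hP (0, 0) (1, 0) (1, 2) (1, 1) 2 0 (by decide)) ?_
  refine fc (xap hP 0 1 0 1 (1, 0) (1, 2) (by decide) (by decide) (by decide)) ?_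
  refine fc (cyp hP (0, 0) (1, 0) (2, 0) (0, 1) 1 0 (by decide)) ?_
  refine fc (cyp hP (0, 0) (1, 0) (2, 0) (1, 1) 1 0 (by decide)) ?_
  refine fc (cyp hP (0, 0) (1, 0) (2, 0) (2, 1) 1 0 (by decide)) ?_
  refine fc (cyp hP (0, 0) (1, 0) (2, 0) (1, 1) 2 0 (by decide)) ?_
  refine fc (cyp hP (0, 0) (1, 0) (2, 0) (2, 1) 2 0 (by decide)) ?_
  refine fc (xap hP 0 1 0 1 (1, 0) (2, 0) (by decide) (by decide) (by decide)) ?_
  refine fc (xap hP 1 1 0 1 (0, 0) (2, 0) (by decide) (by decide) (by decide)) ?_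
  refine fc (xap hP 2 1 0 1 (0, 0) (1, 0) (by decide) (by decide) (by decide)) ?_
  refine fc (cyp hP (0, 0) (1, 0) (2, 1) (2, 0) 1 0 (by decide)) ?_
  refine fc (cyp hP (0, 0) (1, 0) (2, 1) (1, 1) 2 0 (by decide)) ?_
  refine fc (cyp hP (0, 0) (1, 0) (2, 1) (2, 0) 2 0 (by decide)) ?_
  refine fc (xap hP 1 1 0 1 (0, 0) (2, 1) (by decide) (by decide) (by decide)) ?_
  refine fc (xap hP 2 0 1 0 (0, 0) (1, 0) (by decide) (by decide) (by decide)) ?_
  refine fc (xbp hP 0 1 0 1 (1, 0) (2, 0) (by decide) (by decide) (by decide)) ?_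
  refine fc (xbp hP 0 1 0 1 (1, 0) (2, 1) (by decide) (by decide) (by decide)) ?_
  refine fc (xbp hP 1 1 0 1 (0, 0) (2, 0) (by decide) (by decide) (by decide)) ?_
  refine fc (xbp hP 1 1 0 1 (0, 0) (2, 1) (by decide) (by decide) (by decide)) ?_
  refine fc (cyp hP (0, 0) (1, 1) (1, 2) (1, 0) 1 0 (by decide)) ?_
  refine fc (cyp hP (0, 0) (1, 1) (1, 2) (1, 0) 2 0 (by decide)) ?_
  refine fc (cyp hP (0, 0) (1, 1) (2, 0) (0, 1) 1 0 (by decide)) ?_
  refine fc (cyp hP (0, 0) (1, 1) (2, 0) (1, 0) 1 0 (by decide)) ?_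
  refine fc (cyp hP (0, 0) (1, 1) (2, 0) (1, 2) 1 0 (by decide)) ?_
  refine fc (cyp hP (0, 0) (1, 1) (2, 0) (2, 1) 1 0 (by decide)) ?_
  refine fc (cyp hP (0, 0) (1, 1) (2, 0) (0, 1) 2 0 (by decide)) ?_
  refine fc (cyp hP (0, 0) (1, 1) (2, 0) (1, 0) 2 0 (by decide)) ?_
  refine fc (cyp hP (0, 0) (1, 1) (2, 0) (1, 2) 2 0 (by decide)) ?_
  refine fc (xap hP 1 2 1 2 (0, 0) (2, 0) (by decide) (by decide) (by decide)) ?_
  refine fc (cyp hP (0, 0) (1, 1) (2, 1) (1, 0) 1 0 (by decide)) ?_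
  refine fc (cyp hP (0, 0) (1, 1) (2, 1) (1, 2) 1 0 (by decide)) ?_
  refine fc (cyp hP (0, 0) (1, 1) (2, 1) (2, 0) 1 0 (by decide)) ?_
  refine fc (cyp hP (0, 0) (1, 1) (2, 1) (1, 0) 2 0 (by decide)) ?_
  refine fc (cyp hP (0, 0) (1, 1) (2, 1) (1, 2) 2 0 (by decide)) ?_
  refine fc (cyp hP (0, 0) (1, 1) (2, 1) (2, 0) 2 0 (by decide)) ?_
  refine fc (xap hP 0 1 0 1 (1, 1) (2, 1) (by decide) (by decide) (by decide)) ?_
  refine fc (xap hP 1 0 1 0 (0, 0) (2, 1) (by decide) (by decide) (by decide)) ?_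
  refine fc (xap hP 1 2 1 2 (0, 0) (2, 1) (by decide) (by decide) (by decide)) ?_
  refine fc (xap hP 2 0 1 0 (0, 0) (1, 1) (by decide) (by decide) (by decide)) ?_
  refine fc (xbp hP 0 1 0 1 (1, 1) (2, 0) (by decide) (by decide) (by decide)) ?_
  refine fc (xbp hP 1 0 1 0 (0, 0) (2, 0) (by decide) (by decide) (by decide)) ?_
  refine fc (xbp hP 1 2 1 2 (0, 0) (2, 0) (by decide) (by decide) (by decide)) ?_
  refine fc (cyp hP (0, 0) (1, 2) (2, 0) (1, 1) 1 0 (by decide)) ?_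
  refine fc (cyp hP (0, 0) (1, 2) (2, 0) (2, 1) 1 0 (by decide)) ?_
  refine fc (xap hP 1 1 2 1 (0, 0) (2, 0) (by decide) (by decide) (by decide)) ?_
  refine fc (xap hP 2 1 0 1 (0, 0) (1, 2) (by decide) (by decide) (by decide)) ?_
  refine fc (xbp hP 1 1 2 1 (0, 0) (2, 0) (by decide) (by decide) (by decide)) ?_
  refine fc (xbp hP 1 1 2 1 (0, 0) (2, 1) (by decide) (by decide) (by decide)) ?_
  refine fc (cyp hP (0, 0) (2, 0) (2, 1) (0, 1) 1 0 (by decide)) ?_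
  refine fc (xap hP 0 1 0 1 (2, 0) (2, 1) (by decide) (by decide) (by decide)) ?_
  refine fc (xbp hP 0 1 0 1 (2, 0) (1, 0) (by decide) (by decide) (by decide)) ?_
  refine fc (xbp hP 0 1 0 1 (2, 0) (1, 1) (by decide) (by decide) (by decide)) ?_
  refine fc (xbp hP 2 1 0 1 (0, 0) (1, 0) (by decide) (by decide) (by decide)) ?_
  refine fc (xbp hP 2 1 0 1 (0, 0) (1, 1) (by decide) (by decide) (by decide)) ?_
  refine fc (xbp hP 0 1 0 1 (2, 1) (1, 0) (by decide) (by decide) (by decide)) ?_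
  refine fc (xbp hP 2 0 1 0 (0, 0) (1, 0) (by decide) (by decide) (by decide)) ?_
  refine fc (xbp hP 2 0 1 0 (0, 0) (1, 1) (by decide) (by decide) (by decide)) ?_
  refine fc (xcp hP 0 1 0 1 (1, 0) (2, 0) (by decide) (by decide) (by decide)) ?_
  refine fc (xcp hP 0 1 0 1 (1, 1) (2, 0) (by decide) (by decide) (by decide)) ?_
  refine fc (xcp hP 0 1 0 1 (1, 1) (2, 1) (by decide) (by decide) (by decide)) ?_
  refine fc (cyp hP (0, 1) (1, 0) (1, 2) (1, 1) 1 0 (by decide)) ?_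
  refine fc (cyp hP (0, 1) (1, 0) (1, 2) (2, 0) 1 0 (by decide)) ?_
  refine fc (cyp hP (0, 1) (1, 0) (1, 2) (1, 1) 2 0 (by decide)) ?_
  refine fc (xap hP 0 0 1 0 (1, 0) (1, 2) (by decide) (by decide) (by decide)) ?_
  refine fc (xap hP 0 0 1 0 (1, 0) (2, 0) (by decide) (by decide) (by decide)) ?_
  refine fc (cyp hP (0, 1) (1, 0) (2, 1) (0, 0) 1 0 (by decide)) ?_
  refine fc (cyp hP (0, 1) (1, 0) (2, 1) (1, 1) 1 0 (by decide)) ?_
  refine fc (xbp hP 0 0 1 0 (1, 0) (2, 0) (by decide) (by decide) (by decide)) ?_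
  refine fc (xbp hP 0 0 1 0 (1, 0) (2, 1) (by decide) (by decide) (by decide)) ?_
  refine fc (xbp hP 1 1 0 1 (0, 1) (2, 0) (by decide) (by decide) (by decide)) ?_
  refine fc (cyp hP (0, 1) (1, 1) (2, 0) (0, 0) 1 0 (by decide)) ?_
  refine fc (cyp hP (0, 1) (1, 1) (2, 0) (1, 0) 1 0 (by decide)) ?_
  refine fc (cyp hP (0, 1) (1, 1) (2, 0) (2, 1) 1 0 (by decide)) ?_
  refine fc (cyp hP (0, 1) (1, 1) (2, 0) (0, 0) 2 0 (by decide)) ?_
  refine fc (cyp hP (0, 1) (1, 1) (2, 0) (1, 0) 2 0 (by decide)) ?_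
  refine fc (xap hP 0 0 1 0 (1, 1) (2, 0) (by decide) (by decide) (by decide)) ?_
  refine fc (xap hP 1 0 1 0 (0, 1) (2, 0) (by decide) (by decide) (by decide)) ?_
  refine fc (cyp hP (0, 1) (1, 1) (2, 1) (0, 0) 1 0 (by decide)) ?_
  refine fc (cyp hP (0, 1) (1, 1) (2, 1) (1, 0) 1 0 (by decide)) ?_
  refine fc (cyp hP (0, 1) (1, 1) (2, 1) (2, 0) 1 0 (by decide)) ?_
  refine fc (cyp hP (0, 1) (1, 1) (2, 1) (1, 0) 2 0 (by decide)) ?_
  refine fc (xap hP 1 0 1 0 (0, 1) (2, 1) (by decide) (by decide) (by decide)) ?_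
  refine fc (xbp hP 1 0 1 0 (0, 1) (2, 0) (by decide) (by decide) (by decide)) ?_
  refine fc (cyp hP (0, 1) (1, 2) (2, 0) (1, 1) 2 0 (by decide)) ?_
  refine fc (xap hP 0 0 1 0 (1, 2) (2, 0) (by decide) (by decide) (by decide)) ?_
  refine fc (xap hP 1 1 2 1 (0, 1) (2, 0) (by decide) (by decide) (by decide)) ?_
  refine fc (cyp hP (0, 1) (1, 2) (2, 1) (2, 0) 1 0 (by decide)) ?_
  refine fc (xap hP 0 0 1 0 (1, 2) (2, 1) (by decide) (by decide) (by decide)) ?_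
  refine fc (xap hP 2 0 1 0 (0, 1) (1, 2) (by decide) (by decide) (by decide)) ?_
  refine fc (xbp hP 0 0 1 0 (1, 2) (2, 0) (by decide) (by decide) (by decide)) ?_
  refine fc (xbp hP 1 1 2 1 (0, 1) (2, 0) (by decide) (by decide) (by decide)) ?_
  refine fc (xap hP 0 0 1 0 (2, 0) (2, 1) (by decide) (by decide) (by decide)) ?_
  refine fc (xbp hP 0 0 1 0 (2, 0) (1, 0) (by decide) (by decide) (by decide)) ?_
  refine fc (xbp hP 2 1 0 1 (0, 1) (1, 0) (by decide) (by decide) (by decide)) ?_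
  refine fc (xbp hP 0 0 1 0 (2, 1) (1, 0) (by decide) (by decide) (by decide)) ?_
  refine fc (xbp hP 2 0 1 0 (0, 1) (1, 0) (by decide) (by decide) (by decide)) ?_
  refine fc (xcp hP 0 0 1 0 (1, 0) (2, 0) (by decide) (by decide) (by decide)) ?_
  refine fc (xcp hP 0 0 1 0 (1, 1) (2, 0) (by decide) (by decide) (by decide)) ?_
  refine fc (cyp hP (1, 0) (1, 1) (2, 0) (1, 2) 1 0 (by decide)) ?_
  refine fc (cyp hP (1, 0) (1, 1) (2, 0) (1, 2) 2 0 (by decide)) ?_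
  refine fc (xap hP 2 0 1 0 (1, 0) (1, 1) (by decide) (by decide) (by decide)) ?_
  refine fc (cyp hP (1, 0) (1, 2) (2, 0) (1, 1) 1 0 (by decide)) ?_
  refine fc (cyp hP (1, 0) (1, 2) (2, 0) (2, 1) 1 0 (by decide)) ?_
  refine fc (cyp hP (1, 0) (1, 2) (2, 0) (1, 1) 2 0 (by decide)) ?_
  refine fc (xap hP 2 1 0 1 (1, 0) (1, 2) (by decide) (by decide) (by decide)) ?_
  refine fc (cyp hP (1, 0) (1, 2) (2, 1) (0, 0) 1 0 (by decide)) ?_
  refine fc (cyp hP (1, 0) (1, 2) (2, 1) (1, 1) 1 0 (by decide)) ?_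
  refine fc (cyp hP (1, 0) (1, 2) (2, 1) (2, 0) 1 0 (by decide)) ?_
  refine fc (xap hP 2 0 1 0 (1, 0) (1, 2) (by decide) (by decide) (by decide)) ?_
  refine fc (cyp hP (1, 0) (2, 0) (2, 1) (1, 1) 1 0 (by decide)) ?_
  refine fc (xap hP 1 1 0 1 (2, 0) (2, 1) (by decide) (by decide) (by decide)) ?_
  refine fc (xbp hP 2 1 0 1 (1, 0) (0, 0) (by decide) (by decide) (by decide)) ?_
  refine fc (xbp hP 1 1 0 1 (2, 0) (0, 1) (by decide) (by decide) (by decide)) ?_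
  refine fc (xbp hP 2 1 0 1 (1, 0) (0, 1) (by decide) (by decide) (by decide)) ?_
  refine fc (xbp hP 2 0 1 0 (1, 0) (0, 0) (by decide) (by decide) (by decide)) ?_
  refine fc (xbp hP 1 1 0 1 (2, 1) (0, 1) (by decide) (by decide) (by decide)) ?_
  refine fc (xbp hP 2 0 1 0 (1, 0) (0, 1) (by decide) (by decide) (by decide)) ?_
  refine fc (xcp hP 1 1 0 1 (0, 1) (2, 0) (by decide) (by decide) (by decide)) ?_
  refine fc (xcp hP 1 1 0 1 (0, 1) (2, 1) (by decide) (by decide) (by decide)) ?_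
  refine fc (cyp hP (1, 1) (1, 2) (2, 0) (1, 0) 1 0 (by decide)) ?_
  refine fc (xap hP 1 0 1 0 (2, 0) (2, 1) (by decide) (by decide) (by decide)) ?_
  refine fc (xap hP 1 2 1 2 (2, 0) (2, 1) (by decide) (by decide) (by decide)) ?_
  refine fc (xbp hP 1 0 1 0 (2, 0) (0, 0) (by decide) (by decide) (by decide)) ?_
  refine fc (xbp hP 1 2 1 2 (2, 0) (0, 0) (by decide) (by decide) (by decide)) ?_
  refine fc (xbp hP 1 0 1 0 (2, 1) (0, 0) (by decide) (by decide) (by decide)) ?_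
  refine fc (xbp hP 1 2 1 2 (2, 1) (0, 0) (by decide) (by decide) (by decide)) ?_
  refine fc (xbp hP 2 0 1 0 (1, 1) (0, 0) (by decide) (by decide) (by decide)) ?_
  refine fc (xbp hP 1 0 1 0 (2, 1) (0, 1) (by decide) (by decide) (by decide)) ?_
  refine fc (xbp hP 2 0 1 0 (1, 1) (0, 1) (by decide) (by decide) (by decide)) ?_
  refine fc (xcp hP 1 0 1 0 (0, 1) (2, 0) (by decide) (by decide) (by decide)) ?_
  refine fc (xap hP 1 1 2 1 (2, 0) (2, 1) (by decide) (by decide) (by decide)) ?_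
  refine fc (xbp hP 1 1 2 1 (2, 0) (0, 1) (by decide) (by decide) (by decide)) ?_
  refine fc (xbp hP 2 0 1 0 (1, 2) (0, 0) (by decide) (by decide) (by decide)) ?_
  refine fc (xcp hP 1 1 2 1 (0, 0) (2, 0) (by decide) (by decide) (by decide)) ?_
  refine fc (xcp hP 1 1 2 1 (0, 1) (2, 0) (by decide) (by decide) (by decide)) ?_
  refine fc (xcp hP 2 1 0 1 (0, 0) (1, 0) (by decide) (by decide) (by decide)) ?_
  refine fc (xcp hP 2 1 0 1 (0, 1) (1, 1) (by decide) (by decide) (by decide)) ?_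
  refine fc (xcp hP 2 0 1 0 (0, 0) (1, 0) (by decide) (by decide) (by decide)) ?_
  refine fc (xcp hP 2 0 1 0 (0, 1) (1, 0) (by decide) (by decide) (by decide)) ?_
  intro q hq
  exact absurd hq List.not_mem_nil

end

theorem chk_bt : chk clp reps bt bt = true := by decide +kernel

theorem run_ok : ld bt desc 1 Tr.e (run steps) = true := by decide +kernel

/-- **the machine theorem** -/
theorem sat_thm : SatThm := fun _ hP => check_sound hP (clp_ok hP) chk_bt desc steps run_ok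

end Pool.Agent.F32C.NC
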