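import Pool.Agent.F32C.Pat

/-!
# The table of the classes and the base clauses (helper80)

`Bt` is a search tree with the 5-sets of labels (as bit masks) and the numbers of their classes; `chk` checks it: every 5-set is
either the representative of its class or it is linked by homogeneity or closeness to a 5-set of the same class with
smaller depth. `maskOf` computes the clause of a relation. `base_ok`: all the clauses are true.
-/

set_option autoImplicit false

namespace Pool.Agent.F32C

/-- bit mask of a list of labels -/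
def mk : List ℕ → ℕ
  | [] => 0
  | x :: l => Nat.lor (Nat.pow 2 x) (mk l)

lemma testBit_mk (l : List ℕ) (i : ℕ) : (mk l).testBit i = true ↔ i ∈ l := by
  induction l with
  | nil => simp [mk]
  | cons x l ih =>
    have e1 : mk (x :: l) = 2 ^ x ||| mk l := rfl
    rw [e1, Nat.testBit_or, Bool.or_eq_true, ih, Nat.testBit_two_pow, List.mem_cons,
      decide_eq_true_iff]
    constructor
    · rintro (h | h)
      · exact Or.inl h.symm
      · exact Or.inr h
    · rintro (h | h)
      · exact Or.inl h.symm
      · exact Or.inr h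

lemma perm_of_mk {l m : List ℕ} (hl : gd l = true) (hm : gd m = true) (h : mk l = mk m) :
    l.Perm m := by
  rw [List.perm_ext_iff_of_nodup (gd_iff.1 hl).1 (gd_iff.1 hm).1]
  intro a
  rw [← testBit_mk, ← testBit_mk, h]

/-- equality of lists -/
def leq : List ℕ → List ℕ → Bool
  | [], [] => true
  | a :: l, b :: m => Nat.beq a b && leq l m
  | _, _ => false

lemma leq_iff {l m : List ℕ} : leq l m = true ↔ l = m := by
  induction l generalizing m with
  | nil => cases m <;> simp [leq]
  | cons a l ih =>
    cases m with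
    | nil => simp [leq]
    | cons b m => simp only [leq, Bool.and_eq_true, ih, Nat.beq_eq, List.cons.injEq]

/-! ### The tree -/

/-- search tree: key, number of the class, depth, the list, the parent -/
inductive Bt where
  | e : Bt
  | n (key k dep : Nat) (l p : List Nat) (a b : Bt) : Bt

noncomputable def Bt.find {β : Type} (t : Bt) (key : Nat) (f : Nat → Nat → β) (d : β) : β :=
  Bt.rec d (fun k0 k dep _ _ _ _ ra rb =>
    Bool.rec (Bool.rec rb ra (Nat.blt key k0)) (f k dep) (Nat.beq key k0)) t

lemma Bt.find_n {β : Type} (k0 k dep : Nat) (l p : List Nat) (a b : Bt) (key : Nat)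
    (f : Nat → Nat → β) (d : β) : (Bt.n k0 k dep l p a b).find key f d =
      Bool.rec (Bool.rec (b.find key f d) (a.find key f d) (Nat.blt key k0)) (f k dep)
        (Nat.beq key k0) := rfl

/-- all nodes have the property `P` -/
def Bt.All (P : Nat → Nat → Nat → List Nat → List Nat → Prop) : Bt → Prop
  | Bt.e => True
  | Bt.n key k dep l p a b => P key k dep l p ∧ a.All P ∧ b.All P

lemma Bt.All.imp {P Q : Nat → Nat → Nat → List Nat → List Nat → Prop}
    (h : ∀ key k dep l p, P key k dep l p → Q key k dep l p) : ∀ {t : Bt}, t.All P → t.All Q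
  | Bt.e, _ => trivial
  | Bt.n _ _ _ _ _ _ _, ⟨h1, h2, h3⟩ => ⟨h _ _ _ _ _ h1, Bt.All.imp h h2, Bt.All.imp h h3⟩

lemma Bt.All.and {P Q : Nat → Nat → Nat → List Nat → List Nat → Prop} :
    ∀ {t : Bt}, t.All P → t.All Q → t.All (fun key k dep l p => P key k dep l p ∧ Q key k dep l p)
  | Bt.e, _, _ => trivial
  | Bt.n _ _ _ _ _ _ _, ⟨h1, h2, h3⟩, ⟨h4, h5, h6⟩ =>
    ⟨⟨h1, h4⟩, Bt.All.and h2 h5, Bt.All.and h3 h6⟩

lemma Bt.find_spec {P : Nat → Nat → Nat → List Nat → List Nat → Prop} {β : Type} (key : Nat)
    (f : Nat → Nat → β) (d : β) : ∀ {t : Bt}, t.All P →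
      t.find key f d = d ∨ ∃ k dep l p, P key k dep l p ∧ t.find key f d = f k dep
  | Bt.e, _ => Or.inl rfl
  | Bt.n k0 k dep l p a b, ⟨h1, h2, h3⟩ => by
    rw [Bt.find_n]
    cases h4 : Nat.beq key k0
    · cases h5 : Nat.blt key k0
      · exact Bt.find_spec key f d h3
      · exact Bt.find_spec key f d h2
    · have h6 : key = k0 := Nat.eq_of_beq_eq_true h4
      subst h6
      exact Or.inr ⟨k, dep, l, p, h1, rfl⟩

/-! ### Closeness pairs -/

/-- membership in a list of pairs -/
def memp (l p : List ℕ) : List (List ℕ × List ℕ) → Bool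
  | [] => false
  | q :: c => (leq q.1 l && leq q.2 p) || memp l p c

lemma memp_iff {l p : List ℕ} {c : List (List ℕ × List ℕ)} :
    memp l p c = true ↔ (l, p) ∈ c := by
  induction c with
  | nil => simp [memp]
  | cons q c ih =>
    simp only [memp, Bool.or_eq_true, Bool.and_eq_true, leq_iff, ih, List.mem_cons, Prod.ext_iff]
    constructor
    · rintro (⟨h1, h2⟩ | h)
      · exact Or.inl ⟨h1.symm, h2.symm⟩
      · exact Or.inr h
    · rintro (⟨h1, h2⟩ | h)
      · exact Or.inl ⟨h1.symm, h2.symm⟩
      · exact Or.inr h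

/-! ### The check of the table -/

/-- five different labels in increasing order -/
def okl (l : List ℕ) : Bool := Nat.beq l.length 5 && (inc l && gd l)

/-- `l` and `p` are linked -/
def rule (c : List (List ℕ × List ℕ)) (l p : List ℕ) : Bool :=
  okl p && (sim l p || (memp l p c || memp p l c))

/-- the check of one node -/
noncomputable def nodeOk (c : List (List ℕ × List ℕ)) (reps : List (List ℕ)) (t : Bt)
    (key k dep : ℕ) (l p : List ℕ) : Bool :=
  Nat.beq key (mk l) && (okl l && Bool.rec
    (t.find (mk p) (fun k' dep' => Nat.beq k k' && Nat.blt dep' dep) false && rule c l p)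
    (leq (reps.getD k []) l) (Nat.beq dep 0))

/-- the check of all nodes -/
noncomputable def chk (c : List (List ℕ × List ℕ)) (reps : List (List ℕ)) (t : Bt) : Bt → Bool
  | Bt.e => true
  | Bt.n key k dep l p a b => nodeOk c reps t key k dep l p && (chk c reps t a && chk c reps t b)

lemma chk_all {c : List (List ℕ × List ℕ)} {reps : List (List ℕ)} {t : Bt} :
    ∀ {s : Bt}, chk c reps t s = true →
      s.All (fun key k dep l p => nodeOk c reps t key k dep l p = true)
  | Bt.e, _ => trivial
  | Bt.n key k dep l p a b, h => by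
    simp only [chk, Bool.and_eq_true] at h
    exact ⟨h.1, chk_all h.2.1, chk_all h.2.2⟩

section
variable {g : List ℕ → Bool}

/-- the assignment -/
def asg (g : List ℕ → Bool) (reps : List (List ℕ)) (k : ℕ) : Bool := g (reps.getD k [])

lemma rule_eq (hg : IsP15 g) {c : List (List ℕ × List ℕ)} (hc : ∀ q ∈ c, g q.1 = g q.2)
    {l p : List ℕ} (hl : okl l = true) (h : rule c l p = true) : g l = g p := by
  simp only [rule, okl, Bool.and_eq_true, Bool.or_eq_true, Nat.beq_eq, memp_iff] at h hl
  rcases h.2 with h1 | h1 | h1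
  · exact hg.hom l p hl.1 hl.2.1 h.1.2.1 hl.2.2 h.1.2.2 h1
  · exact hc _ h1
  · exact (hc _ h1).symm

lemma table_dep (hg : IsP15 g) {c : List (List ℕ × List ℕ)} (hc : ∀ q ∈ c, g q.1 = g q.2)
    {reps : List (List ℕ)} {t : Bt}
    (ht : t.All (fun key k dep l p => nodeOk c reps t key k dep l p = true)) (n : ℕ) :
    t.All (fun key k dep l _ => (key = mk l ∧ okl l = true) ∧ (dep < n → g l = asg g reps k)) := by
  induction n with
  | zero =>
    refine ht.imp fun key k dep l p h => ?_
    simp only [nodeOk, Bool.and_eq_true] at h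
    exact ⟨⟨Nat.eq_of_beq_eq_true h.1, h.2.1⟩, fun h0 => absurd h0 (Nat.not_lt_zero _)⟩
  | succ n ih =>
    refine ht.imp fun key k dep l p h => ?_
    simp only [nodeOk, Bool.and_eq_true] at h
    refine ⟨⟨Nat.eq_of_beq_eq_true h.1, h.2.1⟩, fun h0 => ?_⟩
    have h1 := h.2.2
    cases h2 : Nat.beq dep 0
    · rw [h2] at h1
      have h1' : (t.find (mk p) (fun k' dep' => Nat.beq k k' && Nat.blt dep' dep) false &&
        rule c l p) = true := h1
      rw [Bool.and_eq_true] at h1'
      rcases Bt.find_spec (mk p) (fun k' dep' => Nat.beq k k' && Nat.blt dep' dep) false ih with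
        h3 | ⟨k', dep', l', p', ⟨⟨h5, h6⟩, h7⟩, h4⟩
      · rw [h3] at h1'
        exact absurd h1'.1 Bool.false_ne_true
      · rw [h4] at h1'
        have h8 := h1'.1
        rw [Bool.and_eq_true, Nat.beq_eq, Nat.blt_eq] at h8
        have h9 : okl p = true := by
          have := h1'.2
          simp only [rule, Bool.and_eq_true] at this
          exact this.1
        have h10 : p = l' := by
          simp only [okl, Bool.and_eq_true] at h6 h9
          exact List.Perm.eq_of_pairwise' ((inc_iff.1 h9.2.1).imp fun h => h.le)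
            ((inc_iff.1 h6.2.1).imp fun h => h.le) (perm_of_mk h9.2.2 h6.2.2 h5)
        rw [rule_eq hg hc h.2.1 h1'.2, h10, h7 (by omega), h8.1]
    · rw [h2] at h1
      have h1' : leq (reps.getD k []) l = true := h1
      rw [leq_iff] at h1'
      unfold asg
      rw [h1']

/-- the property of the nodes which is used below -/
def NodeP (g : List ℕ → Bool) (reps : List (List ℕ)) (key k _dep : ℕ) (l _p : List ℕ) : Prop :=
  (key = mk l ∧ okl l = true) ∧ g l = asg g reps k

lemma Bt.exists_bound : ∀ t : Bt, ∃ n, t.All (fun _ _ dep _ _ => dep < n)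
  | Bt.e => ⟨0, trivial⟩
  | Bt.n key k dep l p a b => by
    obtain ⟨n1, h1⟩ := Bt.exists_bound a
    obtain ⟨n2, h2⟩ := Bt.exists_bound b
    refine ⟨max (dep + 1) (max n1 n2), by omega, ?_, ?_⟩
    · exact h1.imp fun _ _ _ _ _ h => by omega
    · exact h2.imp fun _ _ _ _ _ h => by omega

lemma table_ok (hg : IsP15 g) {c : List (List ℕ × List ℕ)} (hc : ∀ q ∈ c, g q.1 = g q.2)
    {reps : List (List ℕ)} {t : Bt} (h : chk c reps t t = true) : t.All (NodeP g reps) := by
  have h1 := chk_all h
  obtain ⟨n, hn⟩ := Bt.exists_bound t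
  exact (hn.and (table_dep hg hc h1 n)).imp fun key k dep l p h => ⟨h.2.1, h.2.2 h.1⟩

/-! ### Clauses -/

/-- the literal: the sign of `l` is not `s` -/
noncomputable def li (t : Bt) (l : List ℕ) (s : Bool) : ℕ :=
  t.find (mk l) (fun k _ => Nat.pow 2 (Bool.rec (Nat.mul 2 k) (Nat.add (Nat.mul 2 k) 1)
    (Bool.xor s (par l)))) 3

lemma li_sat (hg : IsP15 g) {reps : List (List ℕ)} {t : Bt} (ht : t.All (NodeP g reps))
    {l : List ℕ} (hl : gd l = true) (h5 : l.length = 5) {s : Bool} (h : g l ≠ s) :
    Sat (asg g reps) (li t l s) := by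
  unfold li
  rcases Bt.find_spec (mk l) (fun k _ => Nat.pow 2 (Bool.rec (Nat.mul 2 k) (Nat.add (Nat.mul 2 k) 1)
    (Bool.xor s (par l)))) 3 ht with h1 | ⟨k, dep, l', p', ⟨⟨h2, h3⟩, h4⟩, h5'⟩
  · rw [h1]
    exact sat_three _
  · rw [h5']
    simp only [okl, Bool.and_eq_true] at h3
    have h6 := eq_sorted hg hl h5 h3.2.1 (perm_of_mk hl h3.2.2 h2)
    rw [h4] at h6
    cases h7 : Bool.xor s (par l)
    · refine ⟨2 * k, ?_, ?_⟩
      · change (2 ^ (2 * k)).testBit (2 * k) = true
        rw [Nat.testBit_two_pow_self]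
      · rw [tv_even]
        revert h6 h h7
        cases g l <;> cases s <;> cases par l <;> cases asg g reps k <;> simp
    · refine ⟨2 * k + 1, ?_, ?_⟩
      · change (2 ^ (2 * k + 1)).testBit (2 * k + 1) = true
        rw [Nat.testBit_two_pow_self]
      · rw [tv_odd]
        revert h6 h h7
        cases g l <;> cases s <;> cases par l <;> cases asg g reps k <;> simp

/-- a relation: Grassmann-Pluecker, edge, 2-face -/
inductive Ds where
  | gp (a b c x y z w : Nat) (t p q r : Bool) : Ds
  | ed (u v a b c d : Nat) (s : Bool) : Ds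
  | tr (u a b c : Nat) (s : Bool) : Ds

/-- the clause of a relation -/
noncomputable def maskOf (bt : Bt) (d : Ds) : ℕ :=
  Ds.rec
    (fun a b c x y z w t p q r => Bool.rec 3
      (Nat.lor (li bt [a, b, c, x, y] p) (Nat.lor (li bt [a, b, c, z, w] (p == t))
        (Nat.lor (li bt [a, b, c, x, z] q) (Nat.lor (li bt [a, b, c, y, w] (q == !t))
          (Nat.lor (li bt [a, b, c, x, w] r) (li bt [a, b, c, y, z] (r == t)))))))
      (gd [a, b, c, x, y, z, w]))
    (fun u v a b c d s => Bool.rec 3
      (Nat.lor (li bt [u, v, b, c, d] s) (Nat.lor (li bt [u, v, a, c, d] (!s))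
        (Nat.lor (li bt [u, v, a, b, d] s) (li bt [u, v, a, b, c] (!s)))))
      (gd [u, v, a, b, c, d] && (Nat.blt u 6 && Nat.ble 6 v)))
    (fun u a b c s => Bool.rec 3
      (Nat.lor (li bt [u, 7, u + 9, b, c] s) (Nat.lor (li bt [u, 7, u + 9, a, c] (!s))
        (li bt [u, 7, u + 9, a, b] s)))
      (gd [u, 7, u + 9, a, b, c] && Nat.blt u 6)) d

lemma gd_sub {l m : List ℕ} (h : gd l = true) (hs : m.Sublist l) : gd m = true := by
  rw [gd_iff] at h ⊢
  exact ⟨h.1.sublist hs, fun x hx => h.2 x (hs.subset hx)⟩

lemma mask_sat (hg : IsP15 g) {reps : List (List ℕ)} {t : Bt} (ht : t.All (NodeP g reps))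
    (d : Ds) : Sat (asg g reps) (maskOf t d) := by
  cases d with
  | gp a b c x y z w s p q r =>
    change Sat (asg g reps) (Bool.rec 3
      (Nat.lor (li t [a, b, c, x, y] p) (Nat.lor (li t [a, b, c, z, w] (p == s))
        (Nat.lor (li t [a, b, c, x, z] q) (Nat.lor (li t [a, b, c, y, w] (q == !s))
          (Nat.lor (li t [a, b, c, x, w] r) (li t [a, b, c, y, z] (r == s)))))))
      (gd [a, b, c, x, y, z, w]))
    cases h0 : gd [a, b, c, x, y, z, w]
    · exact sat_three _
    · have hp := hg.gp a b c x y z w h0 s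
      have k1 : gd [a, b, c, x, y] = true := gd_sub h0 (by simp)
      have k2 : gd [a, b, c, z, w] = true := gd_sub h0 (by simp)
      have k3 : gd [a, b, c, x, z] = true := gd_sub h0 (by simp)
      have k4 : gd [a, b, c, y, w] = true := gd_sub h0 (by simp)
      have k5 : gd [a, b, c, x, w] = true := gd_sub h0 (by simp)
      have k6 : gd [a, b, c, y, z] = true := gd_sub h0 (by simp)
      by_cases e1 : g [a, b, c, x, y] = p
      · by_cases e2 : g [a, b, c, z, w] = (p == s)
        · by_cases e3 : g [a, b, c, x, z] = q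
          · by_cases e4 : g [a, b, c, y, w] = (q == !s)
            · by_cases e5 : g [a, b, c, x, w] = r
              · by_cases e6 : g [a, b, c, y, z] = (r == s)
                · exfalso
                  apply hp
                  rw [e1, e2, e3, e4, e5, e6]
                  cases p <;> cases q <;> cases r <;> cases s <;> decide
                · exact (((((li_sat hg ht k6 rfl e6).lor_right _).lor_right _).lor_right
                    _).lor_right _).lor_right _
              · exact (((((li_sat hg ht k5 rfl e5).lor_left _).lor_right _).lor_right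
                    _).lor_right _).lor_right _
            · exact ((((li_sat hg ht k4 rfl e4).lor_left _).lor_right _).lor_right _).lor_right _
          · exact (((li_sat hg ht k3 rfl e3).lor_left _).lor_right _).lor_right _
        · exact ((li_sat hg ht k2 rfl e2).lor_left _).lor_right _
      · exact (li_sat hg ht k1 rfl e1).lor_left _
  | ed u v a b c d s =>
    change Sat (asg g reps) (Bool.rec 3
      (Nat.lor (li t [u, v, b, c, d] s) (Nat.lor (li t [u, v, a, c, d] (!s))
        (Nat.lor (li t [u, v, a, b, d] s) (li t [u, v, a, b, c] (!s)))))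
      (gd [u, v, a, b, c, d] && (Nat.blt u 6 && Nat.ble 6 v)))
    cases h0 : (gd [u, v, a, b, c, d] && (Nat.blt u 6 && Nat.ble 6 v))
    · exact sat_three _
    · rw [Bool.and_eq_true, Bool.and_eq_true, Nat.blt_eq, Nat.ble_eq] at h0
      obtain ⟨h1, h2, h3⟩ := h0
      have hp := hg.ed u v a b c d h2 h3 h1 s
      have k1 : gd [u, v, b, c, d] = true := gd_sub h1 (by simp)
      have k2 : gd [u, v, a, c, d] = true := gd_sub h1 (by simp)
      have k3 : gd [u, v, a, b, d] = true := gd_sub h1 (by simp)
      have k4 : gd [u, v, a, b, c] = true := gd_sub h1 (by simp)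
      by_cases e1 : g [u, v, b, c, d] = s
      · by_cases e2 : g [u, v, a, c, d] = !s
        · by_cases e3 : g [u, v, a, b, d] = s
          · by_cases e4 : g [u, v, a, b, c] = !s
            · exact absurd ⟨e1, e2, e3, e4⟩ hp
            · exact (((li_sat hg ht k4 rfl e4).lor_right _).lor_right _).lor_right _
          · exact (((li_sat hg ht k3 rfl e3).lor_left _).lor_right _).lor_right _
        · exact ((li_sat hg ht k2 rfl e2).lor_left _).lor_right _
      · exact (li_sat hg ht k1 rfl e1).lor_left _
  | tr u a b c s =>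
    change Sat (asg g reps) (Bool.rec 3
      (Nat.lor (li t [u, 7, u + 9, b, c] s) (Nat.lor (li t [u, 7, u + 9, a, c] (!s))
        (li t [u, 7, u + 9, a, b] s)))
      (gd [u, 7, u + 9, a, b, c] && Nat.blt u 6))
    cases h0 : (gd [u, 7, u + 9, a, b, c] && Nat.blt u 6)
    · exact sat_three _
    · rw [Bool.and_eq_true, Nat.blt_eq] at h0
      obtain ⟨h1, h2⟩ := h0
      have hp := hg.tr u a b c h2 h1 s
      have k1 : gd [u, 7, u + 9, b, c] = true := gd_sub h1 (by simp)
      have k2 : gd [u, 7, u + 9, a, c] = true := gd_sub h1 (by simp)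
      have k3 : gd [u, 7, u + 9, a, b] = true := gd_sub h1 (by simp)
      by_cases e1 : g [u, 7, u + 9, b, c] = s
      · by_cases e2 : g [u, 7, u + 9, a, c] = !s
        · by_cases e3 : g [u, 7, u + 9, a, b] = s
          · exact absurd ⟨e1, e2, e3⟩ hp
          · exact ((li_sat hg ht k3 rfl e3).lor_right _).lor_right _
        · exact ((li_sat hg ht k2 rfl e2).lor_left _).lor_right _
      · exact (li_sat hg ht k1 rfl e1).lor_left _

/-! ### The database of the base clauses -/

/-- continue with the value of `w` (evaluated) -/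
noncomputable def force {β : Type} (w : ℕ) (f : ℕ → β) : β :=
  Nat.rec (f 0) (fun n _ => f (Nat.succ n)) w

lemma force_eq {β : Type} (w : ℕ) (f : ℕ → β) : force w f = f w := by
  cases w <;> rfl

/-- store the clauses of the relations at the places `i, i + 1, ...` and continue with `F` -/
noncomputable def ld (bt : Bt) (l : List Ds) : ℕ → Tr → (Tr → Bool) → Bool :=
  List.rec (fun _ t F => F t)
    (fun d _ ih i t F => force (maskOf bt d) fun w => ih (Nat.succ i) (t.ins i w) F) l

lemma ld_nil (bt : Bt) (i : ℕ) (t : Tr) (F : Tr → Bool) : ld bt [] i t F = F t := rfl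

lemma ld_cons (bt : Bt) (d : Ds) (l : List Ds) (i : ℕ) (t : Tr) (F : Tr → Bool) :
    ld bt (d :: l) i t F = ld bt l (Nat.succ i) (t.ins i (maskOf bt d)) F := by
  change force (maskOf bt d) (fun w => ld bt l (Nat.succ i) (t.ins i w) F) = _
  rw [force_eq]

lemma ld_ok (hg : IsP15 g) {reps : List (List ℕ)} {bt : Bt} (ht : bt.All (NodeP g reps))
    {F : Tr → Bool} : ∀ (l : List Ds) (i : ℕ) (t : Tr), t.Ok (asg g reps) → ld bt l i t F = true →
      ∃ t' : Tr, t'.Ok (asg g reps) ∧ F t' = true
  | [], i, t, h1, h2 => ⟨t, h1, by rwa [ld_nil] at h2⟩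
  | d :: l, i, t, h1, h2 => by
    rw [ld_cons] at h2
    exact ld_ok hg ht l _ _ (Tr.Ok.ins (mask_sat hg ht d) h1 i) h2

/-- the result: a successful check gives a contradiction -/
theorem check_sound (hg : IsP15 g) {c : List (List ℕ × List ℕ)} (hc : ∀ q ∈ c, g q.1 = g q.2)
    {reps : List (List ℕ)} {bt : Bt} (h1 : chk c reps bt bt = true) (l : List Ds) (s : List St)
    (h2 : ld bt l 1 Tr.e (run s) = true) : False := by
  obtain ⟨t', h3, h4⟩ := ld_ok hg (table_ok hg hc h1) l 1 Tr.e trivial h2
  exact run_sound s t' h4 h3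

end

end Pool.Agent.F32C
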