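import Pool.Agent.F32C.Pat3b

/-!
# F32, machine theorem: the table of the classes and the base clauses (helper80)

`Bt` is a search tree with the 5-sets of labels (as bit masks) and the numbers of their classes; `chk` checks it: every 5-set is
either the representative of its class or it is linked by homogeneity or closeness to a 5-set of the same class with
smaller depth. `maskOf` computes the clause of a relation. `check_sound`: a successful check contradicts `Pat P`.
-/

set_option autoImplicit false

namespace Pool.Agent.F32C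

open Pool.Agent.F32

/-- bit mask of a list of labels -/
def mk : List ℕ → ℕ
  | [] => 0
  | x :: l => Nat.lor (Nat.pow 2 x) (mk l)

lemma testBit_mk (l : List ℕ) (i : ℕ) : (mk l).testBit i = true ↔ i ∈ l := by
  induction l with
  | nil => simp [mk]
  | cons x l ih =>
    have e1 : mk (x :: l) = 2 ^ x ||| mk l := rfl
    rw [e1, Nat.testBit_or, Bool.or_eq_true, ih, Nat.testBit_two_pow, List.mem_cons,
      decide_eq_true_iff]
    constructor
    · rintro (h | h)
      · exact Or.inl h.symm
      · exact Or.inr h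
    · rintro (h | h)
      · exact Or.inl h.symm
      · exact Or.inr h

lemma perm_of_mk {l m : List ℕ} (hl : gd l = true) (hm : gd m = true) (h : mk l = mk m) :
    l.Perm m := by
  rw [List.perm_ext_iff_of_nodup (gd_iff.1 hl).1 (gd_iff.1 hm).1]
  intro a
  rw [← testBit_mk, ← testBit_mk, h]

/-- equality of lists -/
def leq : List ℕ → List ℕ → Bool
  | [], [] => true
  | a :: l, b :: m => Nat.beq a b && leq l m
  | _, _ => false

lemma leq_iff {l m : List ℕ} : leq l m = true ↔ l = m := by
  induction l generalizing m with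
  | nil => cases m <;> simp [leq]
  | cons a l ih =>
    cases m with
    | nil => simp [leq]
    | cons b m => simp only [leq, Bool.and_eq_true, ih, Nat.beq_eq, List.cons.injEq]

/-! ### The tree -/

/-- search tree: key, number of the class, depth, the list, the parent -/
inductive Bt where
  | e : Bt
  | n (key k dep : Nat) (l p : List Nat) (a b : Bt) : Bt

noncomputable def Bt.find {β : Type} (t : Bt) (key : Nat) (f : Nat → Nat → β) (d : β) : β :=
  Bt.rec d (fun k0 k dep _ _ _ _ ra rb =>
    Bool.rec (Bool.rec rb ra (Nat.blt key k0)) (f k dep) (Nat.beq key k0)) t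

lemma Bt.find_n {β : Type} (k0 k dep : Nat) (l p : List Nat) (a b : Bt) (key : Nat)
    (f : Nat → Nat → β) (d : β) : (Bt.n k0 k dep l p a b).find key f d =
      Bool.rec (Bool.rec (b.find key f d) (a.find key f d) (Nat.blt key k0)) (f k dep)
        (Nat.beq key k0) := rfl

/-- all nodes have the property `P` -/
def Bt.All (P : Nat → Nat → Nat → List Nat → List Nat → Prop) : Bt → Prop
  | Bt.e => True
  | Bt.n key k dep l p a b => P key k dep l p ∧ a.All P ∧ b.All P

lemma Bt.All.imp {P Q : Nat → Nat → Nat → List Nat → List Nat → Prop}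
    (h : ∀ key k dep l p, P key k dep l p → Q key k dep l p) : ∀ {t : Bt}, t.All P → t.All Q
  | Bt.e, _ => trivial
  | Bt.n _ _ _ _ _ _ _, ⟨h1, h2, h3⟩ => ⟨h _ _ _ _ _ h1, Bt.All.imp h h2, Bt.All.imp h h3⟩

lemma Bt.All.and {P Q : Nat → Nat → Nat → List Nat → List Nat → Prop} :
    ∀ {t : Bt}, t.All P → t.All Q → t.All (fun key k dep l p => P key k dep l p ∧ Q key k dep l p)
  | Bt.e, _, _ => trivial
  | Bt.n _ _ _ _ _ _ _, ⟨h1, h2, h3⟩, ⟨h4, h5, h6⟩ =>
    ⟨⟨h1, h4⟩, Bt.All.and h2 h5, Bt.All.and h3 h6⟩

lemma Bt.find_spec {P : Nat → Nat → Nat → List Nat → List Nat → Prop} {β : Type} (key : Nat)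
    (f : Nat → Nat → β) (d : β) : ∀ {t : Bt}, t.All P →
      t.find key f d = d ∨ ∃ k dep l p, P key k dep l p ∧ t.find key f d = f k dep
  | Bt.e, _ => Or.inl rfl
  | Bt.n k0 k dep l p a b, ⟨h1, h2, h3⟩ => by
    rw [Bt.find_n]
    cases h4 : Nat.beq key k0
    · cases h5 : Nat.blt key k0
      · exact Bt.find_spec key f d h3
      · exact Bt.find_spec key f d h2
    · have h6 : key = k0 := Nat.eq_of_beq_eq_true h4
      subst h6
      exact Or.inr ⟨k, dep, l, p, h1, rfl⟩

/-! ### Closeness pairs -/

/-- five different labels in increasing order -/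
def okl (l : List ℕ) : Bool := Nat.beq l.length 5 && (inc l && gd l)

/-- five different labels -/
def okg (l : List ℕ) : Bool := Nat.beq l.length 5 && gd l

/-- `l` and `p` are the sorted forms of a pair of the list -/
def memp (l p : List ℕ) : List (List ℕ × List ℕ) → Bool
  | [] => false
  | q :: c => (Nat.beq (mk q.1) (mk l) && (Nat.beq (mk q.2) (mk p) &&
      (okg q.1 && (okg q.2 && (par q.1 == par q.2))))) || memp l p c

lemma memp_eq {P : El 3 → R5} (hP : Pat P) {l p : List ℕ} (hl : okl l = true) (hp : okl p = true)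
    {c : List (List ℕ × List ℕ)} (hc : ∀ q ∈ c, sg P q.1 = sg P q.2) (h : memp l p c = true) :
    sg P l = sg P p := by
  induction c with
  | nil => exact absurd h Bool.false_ne_true
  | cons q c ih =>
    simp only [memp, Bool.or_eq_true, Bool.and_eq_true, Nat.beq_eq, okg, beq_iff_eq] at h
    rcases h with ⟨h1, h2, ⟨h3, h3'⟩, ⟨h4, h4'⟩, h5⟩ | h
    · simp only [okl, Bool.and_eq_true, Nat.beq_eq] at hl hp
      have e1 := eq_sorted hP h3' h3 hl.2.1 (perm_of_mk h3' hl.2.2 h1)
      have e2 := eq_sorted hP h4' h4 hp.2.1 (perm_of_mk h4' hp.2.2 h2)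
      have e3 := hc q List.mem_cons_self
      rw [e1, e2, h5] at e3
      revert e3
      cases par q.2 <;> cases sg P l <;> cases sg P p <;> simp
    · exact ih (fun q hq => hc q (List.mem_cons_of_mem _ hq)) h

/-! ### The check of the table -/

/-- `l` and `p` are linked -/
def rule (c : List (List ℕ × List ℕ)) (l p : List ℕ) : Bool :=
  okl p && (sim l p || (memp l p c || memp p l c))

/-- the check of one node -/
noncomputable def nodeOk (c : List (List ℕ × List ℕ)) (reps : List (List ℕ)) (t : Bt)
    (key k dep : ℕ) (l p : List ℕ) : Bool :=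
  Nat.beq key (mk l) && (okl l && Bool.rec
    (t.find (mk p) (fun k' dep' => Nat.beq k k' && Nat.blt dep' dep) false && rule c l p)
    (leq (reps.getD k []) l) (Nat.beq dep 0))

/-- the check of all nodes -/
noncomputable def chk (c : List (List ℕ × List ℕ)) (reps : List (List ℕ)) (t : Bt) : Bt → Bool
  | Bt.e => true
  | Bt.n key k dep l p a b => nodeOk c reps t key k dep l p && (chk c reps t a && chk c reps t b)

lemma chk_all {c : List (List ℕ × List ℕ)} {reps : List (List ℕ)} {t : Bt} :
    ∀ {s : Bt}, chk c reps t s = true →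
      s.All (fun key k dep l p => nodeOk c reps t key k dep l p = true)
  | Bt.e, _ => trivial
  | Bt.n key k dep l p a b, h => by
    simp only [chk, Bool.and_eq_true] at h
    exact ⟨h.1, chk_all h.2.1, chk_all h.2.2⟩

section
variable {P : El 3 → R5}

/-- the assignment -/
noncomputable def asg (P : El 3 → R5) (reps : List (List ℕ)) (k : ℕ) : Bool :=
  sg P (reps.getD k [])

lemma rule_eq (hP : Pat P) {c : List (List ℕ × List ℕ)} (hc : ∀ q ∈ c, sg P q.1 = sg P q.2)
    {l p : List ℕ} (hl : okl l = true) (h : rule c l p = true) : sg P l = sg P p := by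
  simp only [rule, Bool.and_eq_true, Bool.or_eq_true] at h
  have hl' := hl
  have hp' := h.1
  simp only [okl, Bool.and_eq_true, Nat.beq_eq] at hl' hp'
  rcases h.2 with h1 | h1 | h1
  · exact hom hP l p hl'.2.2 hp'.2.2 hl'.1 hp'.1 h1
  · exact memp_eq hP hl h.1 hc h1
  · exact (memp_eq hP h.1 hl hc h1).symm

lemma table_dep (hP : Pat P) {c : List (List ℕ × List ℕ)} (hc : ∀ q ∈ c, sg P q.1 = sg P q.2)
    {reps : List (List ℕ)} {t : Bt}
    (ht : t.All (fun key k dep l p => nodeOk c reps t key k dep l p = true)) (n : ℕ) :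
    t.All (fun key k dep l _ => (key = mk l ∧ okl l = true) ∧ (dep < n → sg P l = asg P reps k)) := by
  induction n with
  | zero =>
    refine ht.imp fun key k dep l p h => ?_
    simp only [nodeOk, Bool.and_eq_true] at h
    exact ⟨⟨Nat.eq_of_beq_eq_true h.1, h.2.1⟩, fun h0 => absurd h0 (Nat.not_lt_zero _)⟩
  | succ n ih =>
    refine ht.imp fun key k dep l p h => ?_
    simp only [nodeOk, Bool.and_eq_true] at h
    refine ⟨⟨Nat.eq_of_beq_eq_true h.1, h.2.1⟩, fun h0 => ?_⟩
    have h1 := h.2.2
    cases h2 : Nat.beq dep 0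
    · rw [h2] at h1
      have h1' : (t.find (mk p) (fun k' dep' => Nat.beq k k' && Nat.blt dep' dep) false &&
        rule c l p) = true := h1
      rw [Bool.and_eq_true] at h1'
      rcases Bt.find_spec (mk p) (fun k' dep' => Nat.beq k k' && Nat.blt dep' dep) false ih with
        h3 | ⟨k', dep', l', p', ⟨⟨h5, h6⟩, h7⟩, h4⟩
      · rw [h3] at h1'
        exact absurd h1'.1 Bool.false_ne_true
      · rw [h4] at h1'
        have h8 := h1'.1
        rw [Bool.and_eq_true, Nat.beq_eq, Nat.blt_eq] at h8
        have h9 : okl p = true := by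
          have := h1'.2
          simp only [rule, Bool.and_eq_true] at this
          exact this.1
        have h10 : p = l' := by
          simp only [okl, Bool.and_eq_true] at h6 h9
          exact List.Perm.eq_of_pairwise' ((inc_iff.1 h9.2.1).imp fun h => h.le)
            ((inc_iff.1 h6.2.1).imp fun h => h.le) (perm_of_mk h9.2.2 h6.2.2 h5)
        rw [rule_eq hP hc h.2.1 h1'.2, h10, h7 (by omega), h8.1]
    · rw [h2] at h1
      have h1' : leq (reps.getD k []) l = true := h1
      rw [leq_iff] at h1'
      unfold asg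
      rw [h1']

/-- the property of the nodes which is used below -/
def NodeP (P : El 3 → R5) (reps : List (List ℕ)) (key k _dep : ℕ) (l _p : List ℕ) : Prop :=
  (key = mk l ∧ okl l = true) ∧ sg P l = asg P reps k

lemma Bt.exists_bound : ∀ t : Bt, ∃ n, t.All (fun _ _ dep _ _ => dep < n)
  | Bt.e => ⟨0, trivial⟩
  | Bt.n key k dep l p a b => by
    obtain ⟨n1, h1⟩ := Bt.exists_bound a
    obtain ⟨n2, h2⟩ := Bt.exists_bound b
    refine ⟨max (dep + 1) (max n1 n2), by omega, ?_, ?_⟩
    · exact h1.imp fun _ _ _ _ _ h => by omega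
    · exact h2.imp fun _ _ _ _ _ h => by omega

lemma table_ok (hP : Pat P) {c : List (List ℕ × List ℕ)} (hc : ∀ q ∈ c, sg P q.1 = sg P q.2)
    {reps : List (List ℕ)} {t : Bt} (h : chk c reps t t = true) : t.All (NodeP P reps) := by
  have h1 := chk_all h
  obtain ⟨n, hn⟩ := Bt.exists_bound t
  exact (hn.and (table_dep hP hc h1 n)).imp fun key k dep l p h => ⟨h.2.1, h.2.2 h.1⟩

/-! ### Clauses -/

/-- the literal: the sign of `l` is not `s` -/
noncomputable def li (t : Bt) (l : List ℕ) (s : Bool) : ℕ :=
  t.find (mk l) (fun k _ => Nat.pow 2 (Bool.rec (Nat.mul 2 k) (Nat.add (Nat.mul 2 k) 1)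
    (Bool.xor s (par l)))) 3

lemma li_sat (hP : Pat P) {reps : List (List ℕ)} {t : Bt} (ht : t.All (NodeP P reps))
    {l : List ℕ} (hl : gd l = true) (h5 : l.length = 5) {s : Bool} (h : sg P l ≠ s) :
    Sat (asg P reps) (li t l s) := by
  unfold li
  rcases Bt.find_spec (mk l) (fun k _ => Nat.pow 2 (Bool.rec (Nat.mul 2 k) (Nat.add (Nat.mul 2 k) 1)
    (Bool.xor s (par l)))) 3 ht with h1 | ⟨k, dep, l', p', ⟨⟨h2, h3⟩, h4⟩, h5'⟩
  · rw [h1]
    exact sat_three _
  · rw [h5']
    simp only [okl, Bool.and_eq_true] at h3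
    have h6 := eq_sorted hP hl h5 h3.2.1 (perm_of_mk hl h3.2.2 h2)
    rw [h4] at h6
    cases h7 : Bool.xor s (par l)
    · refine ⟨2 * k, ?_, ?_⟩
      · change (2 ^ (2 * k)).testBit (2 * k) = true
        rw [Nat.testBit_two_pow_self]
      · rw [tv_even]
        revert h6 h h7
        cases sg P l <;> cases s <;> cases par l <;> cases asg P reps k <;> simp
    · refine ⟨2 * k + 1, ?_, ?_⟩
      · change (2 ^ (2 * k + 1)).testBit (2 * k + 1) = true
        rw [Nat.testBit_two_pow_self]
      · rw [tv_odd]
        revert h6 h h7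
        cases sg P l <;> cases s <;> cases par l <;> cases asg P reps k <;> simp

/-- a relation: Grassmann-Pluecker, edge, 2-face -/
inductive Ds where
  | gp (a b c x y z w : Nat) (t p q r : Bool) : Ds
  | ed (u v a b c d : Nat) (s : Bool) : Ds
  | tr (u a b c : Nat) (s : Bool) : Ds

/-- the clause of a relation -/
noncomputable def maskOf (bt : Bt) (d : Ds) : ℕ :=
  Ds.rec
    (fun a b c x y z w t p q r => Bool.rec 3
      (Nat.lor (li bt [a, b, c, x, y] p) (Nat.lor (li bt [a, b, c, z, w] (p == t))
        (Nat.lor (li bt [a, b, c, x, z] q) (Nat.lor (li bt [a, b, c, y, w] (q == !t))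
          (Nat.lor (li bt [a, b, c, x, w] r) (li bt [a, b, c, y, z] (r == t)))))))
      (gd [a, b, c, x, y, z, w]))
    (fun u v a b c d s => Bool.rec 3
      (Nat.lor (li bt [u, v, b, c, d] s) (Nat.lor (li bt [u, v, a, c, d] (!s))
        (Nat.lor (li bt [u, v, a, b, d] s) (li bt [u, v, a, b, c] (!s)))))
      (gd [u, v, a, b, c, d] && edN u v a b c d))
    (fun u a b c s => Bool.rec 3
      (Nat.lor (li bt [u, 10, u + 12, b, c] s) (Nat.lor (li bt [u, 10, u + 12, a, c] (!s))
        (li bt [u, 10, u + 12, a, b] s)))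
      (gd [u, 10, u + 12, a, b, c] && Nat.blt u 9)) d

lemma mask_sat (hP : Pat P) {reps : List (List ℕ)} {t : Bt} (ht : t.All (NodeP P reps))
    (d : Ds) : Sat (asg P reps) (maskOf t d) := by
  cases d with
  | gp a b c x y z w s p q r =>
    change Sat (asg P reps) (Bool.rec 3
      (Nat.lor (li t [a, b, c, x, y] p) (Nat.lor (li t [a, b, c, z, w] (p == s))
        (Nat.lor (li t [a, b, c, x, z] q) (Nat.lor (li t [a, b, c, y, w] (q == !s))
          (Nat.lor (li t [a, b, c, x, w] r) (li t [a, b, c, y, z] (r == s)))))))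
      (gd [a, b, c, x, y, z, w]))
    cases h0 : gd [a, b, c, x, y, z, w]
    · exact sat_three _
    · have hp := gp hP a b c x y z w h0 s
      have k1 : gd [a, b, c, x, y] = true := gd_sub h0 (by simp)
      have k2 : gd [a, b, c, z, w] = true := gd_sub h0 (by simp)
      have k3 : gd [a, b, c, x, z] = true := gd_sub h0 (by simp)
      have k4 : gd [a, b, c, y, w] = true := gd_sub h0 (by simp)
      have k5 : gd [a, b, c, x, w] = true := gd_sub h0 (by simp)
      have k6 : gd [a, b, c, y, z] = true := gd_sub h0 (by simp)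
      by_cases e1 : sg P [a, b, c, x, y] = p
      · by_cases e2 : sg P [a, b, c, z, w] = (p == s)
        · by_cases e3 : sg P [a, b, c, x, z] = q
          · by_cases e4 : sg P [a, b, c, y, w] = (q == !s)
            · by_cases e5 : sg P [a, b, c, x, w] = r
              · by_cases e6 : sg P [a, b, c, y, z] = (r == s)
                · exfalso
                  apply hp
                  rw [e1, e2, e3, e4, e5, e6]
                  cases p <;> cases q <;> cases r <;> cases s <;> decide
                · exact (((((li_sat hP ht k6 rfl e6).lor_right _).lor_right _).lor_right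
                    _).lor_right _).lor_right _
              · exact (((((li_sat hP ht k5 rfl e5).lor_left _).lor_right _).lor_right
                    _).lor_right _).lor_right _
            · exact ((((li_sat hP ht k4 rfl e4).lor_left _).lor_right _).lor_right _).lor_right _
          · exact (((li_sat hP ht k3 rfl e3).lor_left _).lor_right _).lor_right _
        · exact ((li_sat hP ht k2 rfl e2).lor_left _).lor_right _
      · exact (li_sat hP ht k1 rfl e1).lor_left _
  | ed u v a b c d s =>
    change Sat (asg P reps) (Bool.rec 3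
      (Nat.lor (li t [u, v, b, c, d] s) (Nat.lor (li t [u, v, a, c, d] (!s))
        (Nat.lor (li t [u, v, a, b, d] s) (li t [u, v, a, b, c] (!s)))))
      (gd [u, v, a, b, c, d] && edN u v a b c d))
    cases h0 : (gd [u, v, a, b, c, d] && edN u v a b c d)
    · exact sat_three _
    · rw [Bool.and_eq_true] at h0
      obtain ⟨h1, h2⟩ := h0
      have hp := ed hP h1 h2 s
      have k1 : gd [u, v, b, c, d] = true := gd_sub h1 (by simp)
      have k2 : gd [u, v, a, c, d] = true := gd_sub h1 (by simp)
      have k3 : gd [u, v, a, b, d] = true := gd_sub h1 (by simp)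
      have k4 : gd [u, v, a, b, c] = true := gd_sub h1 (by simp)
      by_cases e1 : sg P [u, v, b, c, d] = s
      · by_cases e2 : sg P [u, v, a, c, d] = !s
        · by_cases e3 : sg P [u, v, a, b, d] = s
          · by_cases e4 : sg P [u, v, a, b, c] = !s
            · exact absurd ⟨e1, e2, e3, e4⟩ hp
            · exact (((li_sat hP ht k4 rfl e4).lor_right _).lor_right _).lor_right _
          · exact (((li_sat hP ht k3 rfl e3).lor_left _).lor_right _).lor_right _
        · exact ((li_sat hP ht k2 rfl e2).lor_left _).lor_right _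
      · exact (li_sat hP ht k1 rfl e1).lor_left _
  | tr u a b c s =>
    change Sat (asg P reps) (Bool.rec 3
      (Nat.lor (li t [u, 10, u + 12, b, c] s) (Nat.lor (li t [u, 10, u + 12, a, c] (!s))
        (li t [u, 10, u + 12, a, b] s)))
      (gd [u, 10, u + 12, a, b, c] && Nat.blt u 9))
    cases h0 : (gd [u, 10, u + 12, a, b, c] && Nat.blt u 9)
    · exact sat_three _
    · rw [Bool.and_eq_true, Nat.blt_eq] at h0
      obtain ⟨h1, h2⟩ := h0
      have hp := tr hP h2 h1 s
      have k1 : gd [u, 10, u + 12, b, c] = true := gd_sub h1 (by simp)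
      have k2 : gd [u, 10, u + 12, a, c] = true := gd_sub h1 (by simp)
      have k3 : gd [u, 10, u + 12, a, b] = true := gd_sub h1 (by simp)
      by_cases e1 : sg P [u, 10, u + 12, b, c] = s
      · by_cases e2 : sg P [u, 10, u + 12, a, c] = !s
        · by_cases e3 : sg P [u, 10, u + 12, a, b] = s
          · exact absurd ⟨e1, e2, e3⟩ hp
          · exact ((li_sat hP ht k3 rfl e3).lor_right _).lor_right _
        · exact ((li_sat hP ht k2 rfl e2).lor_left _).lor_right _
      · exact (li_sat hP ht k1 rfl e1).lor_left _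

/-! ### The database of the base clauses -/

/-- continue with the value of `w` (evaluated) -/
noncomputable def force {β : Type} (w : ℕ) (f : ℕ → β) : β :=
  Nat.rec (f 0) (fun n _ => f (Nat.succ n)) w

lemma force_eq {β : Type} (w : ℕ) (f : ℕ → β) : force w f = f w := by
  cases w <;> rfl

/-- store the clauses of the relations at the places `i, i + 1, ...` and continue with `F` -/
noncomputable def ld (bt : Bt) (l : List Ds) : ℕ → Tr → (Tr → Bool) → Bool :=
  List.rec (fun _ t F => F t)
    (fun d _ ih i t F => force (maskOf bt d) fun w => ih (Nat.succ i) (t.ins i w) F) l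

lemma ld_nil (bt : Bt) (i : ℕ) (t : Tr) (F : Tr → Bool) : ld bt [] i t F = F t := rfl

lemma ld_cons (bt : Bt) (d : Ds) (l : List Ds) (i : ℕ) (t : Tr) (F : Tr → Bool) :
    ld bt (d :: l) i t F = ld bt l (Nat.succ i) (t.ins i (maskOf bt d)) F := by
  change force (maskOf bt d) (fun w => ld bt l (Nat.succ i) (t.ins i w) F) = _
  rw [force_eq]

lemma ld_ok (hP : Pat P) {reps : List (List ℕ)} {bt : Bt} (ht : bt.All (NodeP P reps))
    {F : Tr → Bool} : ∀ (l : List Ds) (i : ℕ) (t : Tr), t.Ok (asg P reps) → ld bt l i t F = true →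
      ∃ t' : Tr, t'.Ok (asg P reps) ∧ F t' = true
  | [], i, t, h1, h2 => ⟨t, h1, by rwa [ld_nil] at h2⟩
  | d :: l, i, t, h1, h2 => by
    rw [ld_cons] at h2
    exact ld_ok hP ht l _ _ (Tr.Ok.ins (mask_sat hP ht d) h1 i) h2

/-- the result: a successful check gives a contradiction -/
theorem check_sound (hP : Pat P) {c : List (List ℕ × List ℕ)} (hc : ∀ q ∈ c, sg P q.1 = sg P q.2)
    {reps : List (List ℕ)} {bt : Bt} (h1 : chk c reps bt bt = true) (l : List Ds) (s : List St)
    (h2 : ld bt l 1 Tr.e (run s) = true) : False := by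
  obtain ⟨t', h3, h4⟩ := ld_ok hP (table_ok hP hc h1) l 1 Tr.e trivial h2
  exact run_sound s t' h4 h3

end

end Pool.Agent.F32C
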