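import Pool.Agent.F32C.Rup

/-!
# The pattern P15: statement and generation of the clauses (helper80)

15 labels: `0, .., 5` are the points `x_(r,i)` (label `2 r + i`, rows `r = 0, 1, 2`, `i = 0, 1`), `6, 7, 8` are the points `c_k`
(label `6 + k`), `9, .., 14` are the points `y_(r,i) = y(x_(r,i), c_1)` (label `9 + 2 r + i`). `g l` (`l` a list of five labels) is the sign
of the determinant of the five points (`true`: positive). `IsP15 g`: the hypotheses of helper35's note 2691. The result of this file:
the clauses computed by `maskOf` from a table are true for the assignment `v k = g (representative of the class k)` (`base_sound`).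
-/

set_option autoImplicit false

namespace Pool.Agent.F32C

/-! ### Statement -/

/-- type of a label: `0` for `x`, `1` for `c`, `2` for `y` -/
def ty (e : ℕ) : ℕ := if e < 6 then 0 else if e < 9 then 1 else 2

/-- the row of a point `x` or `y` -/
def rw' (e : ℕ) : ℕ := if e < 6 then e / 2 else (e - 9) / 2

/-- the index in the row of a point `x` or `y` -/
def ix (e : ℕ) : ℕ := if e < 6 then e % 2 else (e - 9) % 2

/-- the number `k` of a point `c` or `y` (`y_(r,i)` belongs to `c_1`) -/
def kx (e : ℕ) : ℕ := if e < 9 then e - 6 else 1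

/-- comparison of two numbers: `0`, `1`, `2` for `<`, `=`, `>` -/
def cp (a b : ℕ) : ℕ := if a < b then 0 else if a = b then 1 else 2

/-- the relative position of two labels: comparison of the rows, in the same row comparison of the indices, comparison of the
numbers `k` -/
def pc (a b : ℕ) : ℕ :=
  (if ty a = 1 ∨ ty b = 1 then 0 else if rw' a = rw' b then 3 + cp (ix a) (ix b) else
    cp (rw' a) (rw' b)) +
    8 * (if ty a = 0 ∨ ty b = 0 then 0 else cp (kx a) (kx b))

/-- `a` has the same position relative to the labels of `l` as `b` relative to the labels of `m` -/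
def sim1 (a b : ℕ) : List ℕ → List ℕ → Bool
  | [], [] => true
  | c :: l, d :: m => Nat.beq (pc a c) (pc b d) && sim1 a b l m
  | _, _ => false

/-- two lists of labels have the same order type (the same types of points, the same relative positions) -/
def sim : List ℕ → List ℕ → Bool
  | [], [] => true
  | a :: l, b :: m => Nat.beq (ty a) (ty b) && (sim1 a b l m && sim l m)
  | _, _ => false

/-- the labels of `l` are different from `x` -/
def nin (x : ℕ) : List ℕ → Bool
  | [] => true
  | y :: l => !(Nat.beq x y) && nin x l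

/-- different labels `< 15` -/
def gd : List ℕ → Bool
  | [] => true
  | x :: l => nin x l && (Nat.blt x 15 && gd l)

/-- increasing list -/
def inc : List ℕ → Bool
  | [] => true
  | [_] => true
  | x :: y :: l => Nat.blt x y && inc (y :: l)

/-- the hypotheses of the pattern P15; `g l` = the determinant of the five points of `l` is positive -/
structure IsP15 (g : List ℕ → Bool) : Prop where
  /-- the determinant is alternating -/
  swap : ∀ p a b q, gd (p ++ a :: b :: q) = true → (p ++ a :: b :: q).length = 5 →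
    g (p ++ a :: b :: q) = !(g (p ++ b :: a :: q))
  /-- three term Grassmann-Pluecker relations: `[abcxy][abczw] - [abcxz][abcyw] + [abcxw][abcyz] = 0` -/
  gp : ∀ a b c x y z w, gd [a, b, c, x, y, z, w] = true → ∀ t : Bool,
    ¬ ((g [a, b, c, x, y] == g [a, b, c, z, w]) = t ∧ (g [a, b, c, x, z] == g [a, b, c, y, w]) = !t ∧
      (g [a, b, c, x, w] == g [a, b, c, y, z]) = t)
  /-- the pairs `x c`, `x y` are edges -/
  ed : ∀ u v a b c d, u < 6 → 6 ≤ v → gd [u, v, a, b, c, d] = true → ∀ s : Bool,
    ¬ (g [u, v, b, c, d] = s ∧ g [u, v, a, c, d] = !s ∧ g [u, v, a, b, d] = s ∧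
      g [u, v, a, b, c] = !s)
  /-- the triples `x_(r,i) c_1 y_(r,i)` are 2-faces -/
  tr : ∀ u a b c, u < 6 → gd [u, 7, u + 9, a, b, c] = true → ∀ s : Bool,
    ¬ (g [u, 7, u + 9, b, c] = s ∧ g [u, 7, u + 9, a, c] = !s ∧ g [u, 7, u + 9, a, b] = s)
  /-- homogeneity: the sign depends only on the order type -/
  hom : ∀ l m, l.length = 5 → inc l = true → inc m = true → gd l = true → gd m = true →
    sim l m = true → g l = g m
  /-- closeness -/
  a1 : ∀ i j k y, i < 2 → j < 2 → k < 2 → 9 ≤ y → y < 15 →
    g [0, 1, 2 + i, 4 + j, 13 + k] = g [0, 1, 2 + i, 4 + j, y]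
  a2 : ∀ i j k y, i < 2 → j < 2 → k < 2 → 9 ≤ y → y < 15 →
    g [i, 2, 3, 4 + j, 13 + k] = g [i, 2, 3, 4 + j, y]
  a3 : ∀ i j k y, i < 2 → j < 2 → k < 2 → 9 ≤ y → y < 15 →
    g [i, 2 + j, 4, 5, 13 + k] = g [i, 2 + j, 4, 5, y]
  b1 : ∀ i j k k', i < 2 → j < 2 → k < 3 → k' < 3 →
    g [i, 2, 3, 6 + k, 13 + j] = g [i, 2, 3, 6 + k', 13 + j]
  b2 : ∀ i j k k', i < 2 → j < 2 → k < 3 → k' < 3 →
    g [2 + i, 4, 5, 6 + k, 9 + j] = g [2 + i, 4, 5, 6 + k', 9 + j]
  c1 : ∀ i j, i < 2 → j < 2 → g [0, 1, 9, 11 + i, 13 + j] = g [0, 1, 10, 11 + i, 13 + j]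
  c2 : ∀ i j, i < 2 → j < 2 → g [4, 5, 9 + i, 11 + j, 13] = g [4, 5, 9 + i, 11 + j, 14]

/-! ### Sorting -/

/-- parity of the number of elements of `l` smaller than `x` -/
def cnt (x : ℕ) : List ℕ → Bool
  | [] => false
  | y :: l => Bool.xor (Nat.blt y x) (cnt x l)

/-- parity of the number of inversions -/
def par : List ℕ → Bool
  | [] => false
  | x :: l => Bool.xor (cnt x l) (par l)

lemma cnt_perm {x : ℕ} {l m : List ℕ} (h : l.Perm m) : cnt x l = cnt x m := by
  induction h with
  | nil => rfl
  | cons y _ ih => simp only [cnt, ih]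
  | swap y z l =>
    simp only [cnt]
    cases Nat.blt z x <;> cases Nat.blt y x <;> cases cnt x l <;> rfl
  | trans _ _ h1 h2 => rw [h1, h2]

lemma cnt_eq_false {x : ℕ} {l : List ℕ} (h : ∀ y ∈ l, x ≤ y) : cnt x l = false := by
  induction l with
  | nil => rfl
  | cons y l ih =>
    simp only [cnt]
    rw [ih fun z hz => h z (List.mem_cons_of_mem _ hz)]
    have h1 : Nat.blt y x = false := by
      have h2 := h y List.mem_cons_self
      cases h3 : Nat.blt y x
      · rfl
      · rw [Nat.blt_eq] at h3
        omega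
    rw [h1]
    rfl

lemma beq_false_iff {a b : ℕ} : Nat.beq a b = false ↔ a ≠ b := by
  cases h : Nat.beq a b
  · refine ⟨fun _ h1 => ?_, fun _ => rfl⟩
    rw [← Nat.beq_eq, h] at h1
    exact Bool.false_ne_true h1
  · rw [Nat.beq_eq] at h
    simp [h]

lemma nin_iff {x : ℕ} {l : List ℕ} : nin x l = true ↔ x ∉ l := by
  induction l with
  | nil => simp [nin]
  | cons y l ih =>
    simp only [nin, Bool.and_eq_true, ih, List.mem_cons, not_or, Bool.not_eq_true', beq_false_iff]

lemma gd_iff {l : List ℕ} : gd l = true ↔ l.Nodup ∧ ∀ x ∈ l, x < 15 := by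
  induction l with
  | nil => simp [gd]
  | cons y l ih =>
    simp only [gd, Bool.and_eq_true, ih, nin_iff, List.nodup_cons, List.mem_cons, forall_eq_or_imp]
    rw [Nat.blt_eq]
    tauto

lemma gd_perm {l m : List ℕ} (h : l.Perm m) (hl : gd l = true) : gd m = true := by
  rw [gd_iff] at hl ⊢
  exact ⟨h.nodup_iff.1 hl.1, fun x hx => hl.2 x (h.mem_iff.2 hx)⟩

lemma inc_iff {l : List ℕ} : inc l = true ↔ l.Pairwise (· < ·) := by
  induction l with
  | nil => simp [inc]
  | cons x l ih =>
    cases l with
    | nil => simp [inc]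
    | cons y l =>
      simp only [inc, Bool.and_eq_true, ih, Nat.blt_eq]
      constructor
      · rintro ⟨h1, h2⟩
        refine List.Pairwise.cons (fun z hz => ?_) h2
        rcases List.mem_cons.1 hz with rfl | hz
        · exact h1
        · exact h1.trans ((List.pairwise_cons.1 h2).1 z hz)
      · intro h
        obtain ⟨h1, h2⟩ := List.pairwise_cons.1 h
        exact ⟨h1 y List.mem_cons_self, h2⟩

section
variable {g : List ℕ → Bool}

lemma insert_sign (hg : IsP15 g) (x : ℕ) : ∀ (t p : List ℕ), gd (p ++ x :: t) = true →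
    (p ++ x :: t).length = 5 → t.Pairwise (· ≤ ·) →
    g (p ++ x :: t) = Bool.xor (cnt x t) (g (p ++ List.orderedInsert (· ≤ ·) x t))
  | [], p, _, _, _ => by simp [cnt]
  | h :: t, p, h1, h2, h3 => by
    have h4 := (List.pairwise_cons.1 h3)
    by_cases hx : x ≤ h
    · rw [List.orderedInsert_cons, if_pos hx]
      rw [cnt_eq_false, Bool.false_xor]
      intro y hy
      rcases List.mem_cons.1 hy with rfl | hy
      · exact hx
      · exact hx.trans (h4.1 y hy)
    · have e1 : List.orderedInsert (· ≤ ·) x (h :: t) = h :: List.orderedInsert (· ≤ ·) x t := by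
        rw [List.orderedInsert_cons, if_neg hx]
      have hp : (p ++ x :: h :: t).Perm ((p ++ [h]) ++ x :: t) := by
        rw [List.append_assoc]
        exact List.Perm.append_left p (List.Perm.swap h x t)
      have h5 := insert_sign hg x t (p ++ [h]) (gd_perm hp h1) (by rw [← hp.length_eq]; exact h2)
        h4.2
      rw [e1, hg.swap p x h t h1 h2]
      have e2 : p ++ h :: x :: t = (p ++ [h]) ++ x :: t := by simp
      rw [e2, h5]
      have e3 : (p ++ [h]) ++ List.orderedInsert (· ≤ ·) x t =
          p ++ h :: List.orderedInsert (· ≤ ·) x t := by simp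
      rw [e3]
      have e4 : cnt x (h :: t) = !(cnt x t) := by
        have : Nat.blt h x = true := by
          rw [Nat.blt_eq]
          omega
        simp only [cnt, this, Bool.true_xor]
      rw [e4, Bool.not_xor]

lemma sort_sign (hg : IsP15 g) : ∀ (l p : List ℕ), gd (p ++ l) = true → (p ++ l).length = 5 →
    g (p ++ l) = Bool.xor (par l) (g (p ++ List.insertionSort (· ≤ ·) l))
  | [], p, _, _ => by simp [par]
  | x :: t, p, h1, h2 => by
    have e1 : p ++ x :: t = (p ++ [x]) ++ t := by simp
    have h3 := sort_sign hg t (p ++ [x]) (by rw [← e1]; exact h1) (by rw [← e1]; exact h2)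
    have hperm : (p ++ x :: t).Perm (p ++ x :: List.insertionSort (· ≤ ·) t) :=
      List.Perm.append_left p ((List.perm_insertionSort (· ≤ ·) t).symm.cons x)
    have h4 := insert_sign hg x (List.insertionSort (· ≤ ·) t) p (gd_perm hperm h1)
      (by rw [← hperm.length_eq]; exact h2) (List.pairwise_insertionSort (· ≤ ·) t)
    have e2 : (p ++ [x]) ++ List.insertionSort (· ≤ ·) t =
        p ++ x :: List.insertionSort (· ≤ ·) t := by simp
    rw [e1, h3, e2, h4, List.insertionSort_cons, cnt_perm (List.perm_insertionSort (· ≤ ·) t)]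
    simp only [par]
    cases par t <;> cases cnt x t <;>
      cases g (p ++ List.orderedInsert (· ≤ ·) x (List.insertionSort (· ≤ ·) t)) <;> rfl

/-- a sorted list with the same labels -/
lemma eq_sorted (hg : IsP15 g) {l m : List ℕ} (hl : gd l = true) (h5 : l.length = 5)
    (hm : inc m = true) (hperm : l.Perm m) : g l = Bool.xor (par l) (g m) := by
  have h1 := sort_sign hg l [] hl h5
  rw [List.nil_append, List.nil_append] at h1
  have h2 : List.insertionSort (· ≤ ·) l = m := by
    refine List.Perm.eq_of_pairwise' (List.pairwise_insertionSort (· ≤ ·) l)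
      ((inc_iff.1 hm).imp fun h => h.le) ((List.perm_insertionSort (· ≤ ·) l).trans hperm)
  rw [h1, h2]

end

end Pool.Agent.F32C
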