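import Mathlib

/-!
# A RUP checker which is evaluated by the kernel (helper80)

Literals are natural numbers: `2 k` is the literal `x_k`, `2 k + 1` its negation; a clause is a set of literals, given as a
bit mask. `tv v j` is the truth value of the literal `j` for the assignment `v`, `Sat v C`: some literal of `C` is true.
Clauses are stored in a binary trie (address: the path of the binary digits of the number of the clause). `run` checks a list of steps
`(i, C, hints)`: the clause `C` follows from the stored clauses by unit propagation along the hints, it is stored at the place `i`;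
the check is successful if the empty clause is derived. All functions are written with recursors, so that the kernel
evaluates them quickly (`by decide` is never used on them, only `Eq.refl true`). `run_sound` is the soundness theorem.
-/

set_option autoImplicit false

namespace Pool.Agent.F32C

/-! ### Literals and clauses -/

/-- truth value of a literal -/
def tv (v : ℕ → Bool) (j : ℕ) : Bool := if j % 2 = 0 then v (j / 2) else !(v (j / 2))

/-- the clause `C` is true -/
def Sat (v : ℕ → Bool) (C : ℕ) : Prop := ∃ j, C.testBit j = true ∧ tv v j = true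

/-- all literals of the set `F` are false -/
def Fals (v : ℕ → Bool) (F : ℕ) : Prop := ∀ j, F.testBit j = true → tv v j = false

lemma not_sat_zero (v : ℕ → Bool) : ¬ Sat v 0 := by
  rintro ⟨j, h, -⟩
  simp at h

lemma fals_of_not_sat {v : ℕ → Bool} {C : ℕ} (h : ¬ Sat v C) : Fals v C := by
  intro j hj
  by_contra h1
  exact h ⟨j, hj, by simpa using h1⟩

lemma tv_even (v : ℕ → Bool) (k : ℕ) : tv v (2 * k) = v k := by
  unfold tv
  rw [if_pos (by omega)]
  congr 1
  omega

lemma tv_odd (v : ℕ → Bool) (k : ℕ) : tv v (2 * k + 1) = !(v k) := by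
  unfold tv
  rw [if_neg (by omega)]
  congr 2
  omega

lemma sat_three (v : ℕ → Bool) : Sat v 3 := by
  by_cases h : v 0 = true
  · exact ⟨0, by decide, by simpa [tv] using h⟩
  · exact ⟨1, by decide, by simpa [tv] using h⟩

lemma Sat.lor_left {v : ℕ → Bool} {C : ℕ} (h : Sat v C) (D : ℕ) : Sat v (Nat.lor C D) := by
  obtain ⟨j, h1, h2⟩ := h
  refine ⟨j, ?_, h2⟩
  have : (C ||| D).testBit j = true := by
    rw [Nat.testBit_or, h1, Bool.true_or]
  exact this

lemma Sat.lor_right {v : ℕ → Bool} {D : ℕ} (h : Sat v D) (C : ℕ) : Sat v (Nat.lor C D) := by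
  obtain ⟨j, h1, h2⟩ := h
  refine ⟨j, ?_, h2⟩
  have : (C ||| D).testBit j = true := by
    rw [Nat.testBit_or, h1, Bool.or_true]
  exact this

/-! ### The trie -/

inductive Tr where
  | e : Tr
  | n : Nat → Tr → Tr → Tr

noncomputable def Tr.get (t : Tr) : Nat → Nat :=
  Tr.rec (fun _ => 3) (fun v _ _ gl gr i =>
    Bool.rec (Bool.rec (gr (Nat.div i 2)) (gl (Nat.div i 2)) (Nat.beq (Nat.mod i 2) 0)) v
      (Nat.ble i 1)) t

noncomputable def Tr.ins (t : Tr) : Nat → Nat → Tr :=
  Tr.rec (fun _ w => Tr.n w Tr.e Tr.e) (fun v l r gl gr i w =>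
    Bool.rec (Bool.rec (Tr.n v l (gr (Nat.div i 2) w)) (Tr.n v (gl (Nat.div i 2) w) r)
      (Nat.beq (Nat.mod i 2) 0)) (Tr.n w l r) (Nat.ble i 1)) t

/-- all stored clauses are true -/
def Tr.Ok (v : ℕ → Bool) : Tr → Prop
  | Tr.e => True
  | Tr.n w l r => Sat v w ∧ l.Ok v ∧ r.Ok v

lemma Tr.get_e (i : ℕ) : Tr.e.get i = 3 := rfl

lemma Tr.get_n (w : ℕ) (l r : Tr) (i : ℕ) : (Tr.n w l r).get i =
    Bool.rec (Bool.rec (r.get (Nat.div i 2)) (l.get (Nat.div i 2)) (Nat.beq (Nat.mod i 2) 0)) w
      (Nat.ble i 1) := rfl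

lemma Tr.ins_e (i w : ℕ) : Tr.e.ins i w = Tr.n w Tr.e Tr.e := rfl

lemma Tr.ins_n (u : ℕ) (l r : Tr) (i w : ℕ) : (Tr.n u l r).ins i w =
    Bool.rec (Bool.rec (Tr.n u l (r.ins (Nat.div i 2) w)) (Tr.n u (l.ins (Nat.div i 2) w) r)
      (Nat.beq (Nat.mod i 2) 0)) (Tr.n w l r) (Nat.ble i 1) := rfl

lemma Tr.Ok.get {v : ℕ → Bool} : ∀ {t : Tr}, t.Ok v → ∀ i, Sat v (t.get i)
  | Tr.e, _, i => by
    rw [Tr.get_e]
    exact sat_three v
  | Tr.n w l r, h, i => by
    rw [Tr.get_n]
    obtain ⟨hw, hl, hr⟩ := h
    cases Nat.ble i 1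
    · cases Nat.beq (Nat.mod i 2) 0
      · exact Tr.Ok.get hr _
      · exact Tr.Ok.get hl _
    · exact hw

lemma Tr.Ok.ins {v : ℕ → Bool} {w : ℕ} (hw : Sat v w) :
    ∀ {t : Tr}, t.Ok v → ∀ i, (t.ins i w).Ok v
  | Tr.e, _, i => by
    rw [Tr.ins_e]
    exact ⟨hw, trivial, trivial⟩
  | Tr.n u l r, h, i => by
    rw [Tr.ins_n]
    obtain ⟨hu, hl, hr⟩ := h
    cases Nat.ble i 1
    · cases Nat.beq (Nat.mod i 2) 0
      · exact ⟨hu, hl, Tr.Ok.ins hw hr _⟩
      · exact ⟨hu, Tr.Ok.ins hw hl _, hr⟩
    · exact ⟨hw, hl, hr⟩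

/-! ### Unit propagation -/

/-- the complement of the literal with the mask `R = 2^j` is added to the set `F` of false literals -/
noncomputable def addc (F R : ℕ) : ℕ :=
  Nat.lor F (Bool.rec (Nat.div R 2) (Nat.mul R 2) (Nat.beq (Nat.mod R 3) 1))

/-- unit propagation along the hints, `F` the set of false literals; `true` if a contradiction is found -/
noncomputable def up (t : Tr) (hs : List Nat) : Nat → Bool :=
  List.rec (fun _ => false) (fun h _ ih F =>
    (fun R => Bool.rec
      (Bool.rec false (ih (addc F R)) (Nat.beq (Nat.land R (Nat.sub R 1)) 0))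
      true (Nat.beq R 0)) ((fun C => Nat.xor C (Nat.land C F)) (t.get h))) hs

lemma up_nil (t : Tr) (F : ℕ) : up t [] F = false := rfl

/-- one step of the propagation; `R` is the rest of the clause -/
noncomputable def up1 (t : Tr) (hs : List ℕ) (F R : ℕ) : Bool :=
  Bool.rec (Bool.rec false (up t hs (addc F R)) (Nat.beq (Nat.land R (Nat.sub R 1)) 0))
    true (Nat.beq R 0)

lemma up_cons (t : Tr) (h : ℕ) (hs : List ℕ) (F : ℕ) : up t (h :: hs) F =
    up1 t hs F (Nat.xor (t.get h) (Nat.land (t.get h) F)) := rfl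

lemma pow_mod_three (k : ℕ) : 2 ^ (2 * k) % 3 = 1 ∧ 2 ^ (2 * k + 1) % 3 = 2 := by
  have h : 2 ^ (2 * k) % 3 = 1 := by
    rw [pow_mul, Nat.pow_mod]
    norm_num
  refine ⟨h, ?_⟩
  rw [pow_succ, Nat.mul_mod, h]

lemma fals_addc {v : ℕ → Bool} {F j : ℕ} (hF : Fals v F) (hj : tv v j = true) :
    Fals v (addc F (2 ^ j)) := by
  intro i hi
  have hi' : (F ||| (Bool.rec (Nat.div (2 ^ j) 2) (Nat.mul (2 ^ j) 2)
      (Nat.beq (Nat.mod (2 ^ j) 3) 1) : ℕ)).testBit i = true := hi
  rw [Nat.testBit_or, Bool.or_eq_true] at hi'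
  rcases hi' with h | h
  · exact hF i h
  · obtain ⟨k, rfl | rfl⟩ := Nat.even_or_odd' j
    · have e1 : Nat.beq (Nat.mod (2 ^ (2 * k)) 3) 1 = true := by
        have : Nat.mod (2 ^ (2 * k)) 3 = 1 := (pow_mod_three k).1
        rw [this]
        rfl
      rw [e1] at h
      have h1 : (2 ^ (2 * k) * 2).testBit i = true := h
      rw [← pow_succ, Nat.testBit_two_pow] at h1
      have h2 := of_decide_eq_true h1
      subst h2
      rw [tv_even] at hj
      rw [tv_odd, hj]
      rfl
    · have e1 : Nat.beq (Nat.mod (2 ^ (2 * k + 1)) 3) 1 = false := by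
        have : Nat.mod (2 ^ (2 * k + 1)) 3 = 2 := (pow_mod_three k).2
        rw [this]
        rfl
      rw [e1] at h
      have h1 : (2 ^ (2 * k + 1) / 2).testBit i = true := h
      rw [pow_succ, Nat.mul_div_cancel _ (by norm_num), Nat.testBit_two_pow] at h1
      have h2 := of_decide_eq_true h1
      subst h2
      rw [tv_even]
      rw [tv_odd] at hj
      simpa using hj

/-- the unit propagation is sound -/
lemma up_sound {v : ℕ → Bool} {t : Tr} (ht : t.Ok v) :
    ∀ (hs : List ℕ) (F : ℕ), up t hs F = true → ¬ Fals v F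
  | [], F, h => by
    rw [up_nil] at h
    exact absurd h (by decide)
  | a :: hs, F, h => by
    intro hF
    rw [up_cons] at h
    obtain ⟨i, hi, htv⟩ := ht.get a
    set C := t.get a with hC
    have hiF : F.testBit i = false := by
      by_contra h1
      have h2 := hF i (by simpa using h1)
      rw [htv] at h2
      exact absurd h2 (by decide)
    have hR : (Nat.xor C (Nat.land C F)).testBit i = true := by
      change (C ^^^ (C &&& F)).testBit i = true
      rw [Nat.testBit_xor, Nat.testBit_and, hi, hiF]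
      rfl
    have hRt : ∀ R : ℕ, R.testBit i = true → up1 t hs F R = true → False := by
      intro R hRi h
      unfold up1 at h
      cases h0 : Nat.beq R 0
      · rw [h0] at h
        cases h1 : Nat.beq (Nat.land R (Nat.sub R 1)) 0
        · rw [h1] at h
          exact Bool.false_ne_true h
        · rw [h1] at h
          have h2 : R &&& (R - 1) = 0 := Nat.eq_of_beq_eq_true h1
          have h3 : R ≠ 0 := by
            rintro rfl
            simp at hRi
          obtain ⟨j, hj⟩ := (Nat.and_sub_one_eq_zero_iff_isPowerOfTwo h3).1 h2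
          have h4 : i = j := by
            rw [hj, Nat.testBit_two_pow] at hRi
            exact (of_decide_eq_true hRi).symm
          rw [hj, ← h4] at h
          exact up_sound ht hs _ h (fals_addc hF htv)
      · have h2 : R = 0 := Nat.eq_of_beq_eq_true h0
        rw [h2] at hRi
        simp at hRi
    exact hRt _ hR h

/-! ### The steps -/

/-- a step: place, clause, hints -/
abbrev St := Nat × Nat × List Nat

/-- check the steps; `true` if the empty clause is derived -/
noncomputable def run (l : List St) : Tr → Bool :=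
  List.rec (fun _ => false) (fun s _ ih t =>
    Bool.rec false (Bool.rec (ih (t.ins s.1 s.2.1)) true (Nat.beq s.2.1 0)) (up t s.2.2 s.2.1)) l

lemma run_nil (t : Tr) : run [] t = false := rfl

lemma run_cons (s : St) (l : List St) (t : Tr) : run (s :: l) t =
    Bool.rec false (Bool.rec (run l (t.ins s.1 s.2.1)) true (Nat.beq s.2.1 0))
      (up t s.2.2 s.2.1) := rfl

/-- soundness: if the check is successful then not all the stored clauses are true -/
theorem run_sound {v : ℕ → Bool} : ∀ (l : List St) (t : Tr), run l t = true → ¬ t.Ok v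
  | [], t, h => by
    rw [run_nil] at h
    exact absurd h (by decide)
  | s :: l, t, h => by
    intro ht
    rw [run_cons] at h
    cases h1 : up t s.2.2 s.2.1
    · rw [h1] at h
      exact Bool.false_ne_true h
    · rw [h1] at h
      have hs : Sat v s.2.1 := by
        by_contra h2
        exact up_sound ht _ _ h1 (fals_of_not_sat h2)
      cases h2 : Nat.beq s.2.1 0
      · rw [h2] at h
        exact run_sound l _ h (Tr.Ok.ins hs ht _)
      · have h3 : s.2.1 = 0 := Nat.eq_of_beq_eq_true h2
        rw [h3] at hs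
        exact not_sat_zero v hs

end Pool.Agent.F32C
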