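import Pool.Agent.F32.Pat
import Pool.Agent.F32.Det
import Pool.Agent.F32C.Rup

/-!
# F32, machine theorem: semantic layer (helper80)

The 22 labels of `El 3` are numbered: `X r i = 3 r + i`, `C k = 9 + k`, `Y r i = 12 + 3 r + i`, `W = 21`. `sg P l` (`l` a list of five numbers):
the determinant of the five points is positive. From `Pat P` (`Pool/Agent/F32/Pat.lean`): alternation (`swap`), three term relations
(`gp`), edges (`ed`), faces (`tr`), homogeneity (`hom`), closeness (`close_pair`), in the form which is used by the checker.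
-/

set_option autoImplicit false

namespace Pool.Agent.F32C

open Pool.Agent.F32

/-! ### Labels -/

/-- the label with a given number -/
def lab (n : ℕ) : El 3 :=
  if n < 9 then .X (Fin.ofNat 3 (n / 3)) (Fin.ofNat 3 (n % 3)) else
    if n < 12 then .C (Fin.ofNat 3 (n - 9)) else
      if n < 21 then .Y (Fin.ofNat 3 ((n - 12) / 3)) (Fin.ofNat 3 ((n - 12) % 3)) else .W

/-- the number of a label -/
def nl : El 3 → ℕ
  | .X r i => 3 * r + i
  | .C k => 9 + k
  | .Y r i => 12 + 3 * r + i
  | .W => 21

lemma nl_lab : ∀ n < 22, nl (lab n) = n := by decide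

lemma lab_nl : ∀ e : El 3, lab (nl e) = e := by decide

lemma nl_lt : ∀ e : El 3, nl e < 22 := by decide

lemma lab_inj {a b : ℕ} (ha : a < 22) (hb : b < 22) (h : lab a = lab b) : a = b := by
  rw [← nl_lab a ha, ← nl_lab b hb, h]

/-! ### Lists of numbers -/

/-- the labels of `l` are different from `x` -/
def nin (x : ℕ) : List ℕ → Bool
  | [] => true
  | y :: l => !(Nat.beq x y) && nin x l

/-- different labels `< 22` -/
def gd : List ℕ → Bool
  | [] => true
  | x :: l => nin x l && (Nat.blt x 22 && gd l)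

/-- increasing list -/
def inc : List ℕ → Bool
  | [] => true
  | [_] => true
  | x :: y :: l => Nat.blt x y && inc (y :: l)

/-- parity of the number of elements of `l` smaller than `x` -/
def cnt (x : ℕ) : List ℕ → Bool
  | [] => false
  | y :: l => Bool.xor (Nat.blt y x) (cnt x l)

/-- parity of the number of inversions -/
def par : List ℕ → Bool
  | [] => false
  | x :: l => Bool.xor (cnt x l) (par l)

lemma cnt_perm {x : ℕ} {l m : List ℕ} (h : l.Perm m) : cnt x l = cnt x m := by
  induction h with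
  | nil => rfl
  | cons y _ ih => simp only [cnt, ih]
  | swap y z l =>
    simp only [cnt]
    cases Nat.blt z x <;> cases Nat.blt y x <;> cases cnt x l <;> rfl
  | trans _ _ h1 h2 => rw [h1, h2]

lemma cnt_eq_false {x : ℕ} {l : List ℕ} (h : ∀ y ∈ l, x ≤ y) : cnt x l = false := by
  induction l with
  | nil => rfl
  | cons y l ih =>
    simp only [cnt]
    rw [ih fun z hz => h z (List.mem_cons_of_mem _ hz)]
    have h1 : Nat.blt y x = false := by
      have h2 := h y List.mem_cons_self
      cases h3 : Nat.blt y x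
      · rfl
      · rw [Nat.blt_eq] at h3
        omega
    rw [h1]
    rfl

lemma beq_false_iff {a b : ℕ} : Nat.beq a b = false ↔ a ≠ b := by
  cases h : Nat.beq a b
  · refine ⟨fun _ h1 => ?_, fun _ => rfl⟩
    rw [← Nat.beq_eq, h] at h1
    exact Bool.false_ne_true h1
  · rw [Nat.beq_eq] at h
    simp [h]

lemma nin_iff {x : ℕ} {l : List ℕ} : nin x l = true ↔ x ∉ l := by
  induction l with
  | nil => simp [nin]
  | cons y l ih =>
    simp only [nin, Bool.and_eq_true, ih, List.mem_cons, not_or, Bool.not_eq_true', beq_false_iff]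

lemma gd_iff {l : List ℕ} : gd l = true ↔ l.Nodup ∧ ∀ x ∈ l, x < 22 := by
  induction l with
  | nil => simp [gd]
  | cons y l ih =>
    simp only [gd, Bool.and_eq_true, ih, nin_iff, List.nodup_cons, List.mem_cons, forall_eq_or_imp]
    rw [Nat.blt_eq]
    tauto

lemma gd_perm {l m : List ℕ} (h : l.Perm m) (hl : gd l = true) : gd m = true := by
  rw [gd_iff] at hl ⊢
  exact ⟨h.nodup_iff.1 hl.1, fun x hx => hl.2 x (h.mem_iff.2 hx)⟩

lemma gd_sub {l m : List ℕ} (h : gd l = true) (hs : m.Sublist l) : gd m = true := by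
  rw [gd_iff] at h ⊢
  exact ⟨h.1.sublist hs, fun x hx => h.2 x (hs.subset hx)⟩

lemma inc_iff {l : List ℕ} : inc l = true ↔ l.Pairwise (· < ·) := by
  induction l with
  | nil => simp [inc]
  | cons x l ih =>
    cases l with
    | nil => simp [inc]
    | cons y l =>
      simp only [inc, Bool.and_eq_true, ih, Nat.blt_eq]
      constructor
      · rintro ⟨h1, h2⟩
        refine List.Pairwise.cons (fun z hz => ?_) h2
        rcases List.mem_cons.1 hz with rfl | hz
        · exact h1
        · exact h1.trans ((List.pairwise_cons.1 h2).1 z hz)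
      · intro h
        obtain ⟨h1, h2⟩ := List.pairwise_cons.1 h
        exact ⟨h1 y List.mem_cons_self, h2⟩

/-! ### The sign of a list -/

/-- the determinant of a list of five numbers -/
noncomputable def dt (P : El 3 → R5) : List ℕ → ℝ
  | [a, b, c, d, e] => D5 (P (lab a)) (P (lab b)) (P (lab c)) (P (lab d)) (P (lab e))
  | _ => 0

open Classical in
/-- the sign -/
noncomputable def sg (P : El 3 → R5) (l : List ℕ) : Bool := decide (0 < dt P l)

section D5

lemma D5_perm (s : Equiv.Perm (Fin 5)) (f : Fin 5 → R5) :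
    D5 (f (s 0)) (f (s 1)) (f (s 2)) (f (s 3)) (f (s 4)) =
      ((Equiv.Perm.sign s : ℤ) : ℝ) * D5 (f 0) (f 1) (f 2) (f 3) (f 4) := by
  unfold D5
  have h := Matrix.det_permute s (Matrix.of ![f 0, f 1, f 2, f 3, f 4])
  have e : (Matrix.of ![f 0, f 1, f 2, f 3, f 4]).submatrix s id =
      Matrix.of ![f (s 0), f (s 1), f (s 2), f (s 3), f (s 4)] := by
    ext i j
    have e1 : ∀ k : Fin 5, (![f 0, f 1, f 2, f 3, f 4] : Fin 5 → R5) k = f k := by
      intro k
      fin_cases k <;> rfl
    rw [Matrix.submatrix_apply, Matrix.of_apply, Matrix.of_apply, e1]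
    fin_cases i <;> rfl
  rw [e] at h
  rw [h]

lemma D5_12 (a b c d e : R5) : D5 a b c d e = -D5 b a c d e := by
  have h := D5_perm (Equiv.swap 0 1) ![b, a, c, d, e]
  have hs : Equiv.Perm.sign (Equiv.swap (0 : Fin 5) 1) = -1 := by decide
  rw [hs] at h
  have e0 : Equiv.swap (0 : Fin 5) 1 0 = 1 := by decide
  have e1 : Equiv.swap (0 : Fin 5) 1 1 = 0 := by decide
  have e2 : Equiv.swap (0 : Fin 5) 1 2 = 2 := by decide
  have e3 : Equiv.swap (0 : Fin 5) 1 3 = 3 := by decide
  have e4 : Equiv.swap (0 : Fin 5) 1 4 = 4 := by decide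
  rw [e0, e1, e2, e3, e4] at h
  simpa using h

lemma D5_23 (a b c d e : R5) : D5 a b c d e = -D5 a c b d e := by
  have h := D5_perm (Equiv.swap 1 2) ![a, c, b, d, e]
  have hs : Equiv.Perm.sign (Equiv.swap (1 : Fin 5) 2) = -1 := by decide
  rw [hs] at h
  have e0 : Equiv.swap (1 : Fin 5) 2 0 = 0 := by decide
  have e1 : Equiv.swap (1 : Fin 5) 2 1 = 2 := by decide
  have e2 : Equiv.swap (1 : Fin 5) 2 2 = 1 := by decide
  have e3 : Equiv.swap (1 : Fin 5) 2 3 = 3 := by decide
  have e4 : Equiv.swap (1 : Fin 5) 2 4 = 4 := by decide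
  rw [e0, e1, e2, e3, e4] at h
  simpa using h

lemma D5_34 (a b c d e : R5) : D5 a b c d e = -D5 a b d c e := by
  have h := D5_perm (Equiv.swap 2 3) ![a, b, d, c, e]
  have hs : Equiv.Perm.sign (Equiv.swap (2 : Fin 5) 3) = -1 := by decide
  rw [hs] at h
  have e0 : Equiv.swap (2 : Fin 5) 3 0 = 0 := by decide
  have e1 : Equiv.swap (2 : Fin 5) 3 1 = 1 := by decide
  have e2 : Equiv.swap (2 : Fin 5) 3 2 = 3 := by decide
  have e3 : Equiv.swap (2 : Fin 5) 3 3 = 2 := by decide
  have e4 : Equiv.swap (2 : Fin 5) 3 4 = 4 := by decide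
  rw [e0, e1, e2, e3, e4] at h
  simpa using h

lemma D5_45 (a b c d e : R5) : D5 a b c d e = -D5 a b c e d := by
  have h := D5_perm (Equiv.swap 3 4) ![a, b, c, e, d]
  have hs : Equiv.Perm.sign (Equiv.swap (3 : Fin 5) 4) = -1 := by decide
  rw [hs] at h
  have e0 : Equiv.swap (3 : Fin 5) 4 0 = 0 := by decide
  have e1 : Equiv.swap (3 : Fin 5) 4 1 = 1 := by decide
  have e2 : Equiv.swap (3 : Fin 5) 4 2 = 2 := by decide
  have e3 : Equiv.swap (3 : Fin 5) 4 3 = 4 := by decide
  have e4 : Equiv.swap (3 : Fin 5) 4 4 = 3 := by decide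
  rw [e0, e1, e2, e3, e4] at h
  simpa using h

/-- three term relation -/
lemma D5_gp (a b c x y z w : R5) : D5 a b c x y * D5 a b c z w - D5 a b c x z * D5 a b c y w +
    D5 a b c x w * D5 a b c y z = 0 := by
  have h := Circ.rel a b c x y z (cr ![a, b, c, w])
  have e1 : ∀ u : R5, u ⬝ᵥ cr ![a, b, c, w] = D5 a b c w u := fun u => by
    rw [dotProduct_comm, DetS.dot_cr]
  simp only [e1] at h
  have za : D5 a b c w a = 0 := by
    have h1 := D5_45 a b c w a
    have h2 := D5_34 a b c a w
    have h3 := D5_23 a b a c w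
    have h4 := D5_12 a a b c w
    linarith
  have zb : D5 a b c w b = 0 := by
    have h1 := D5_45 a b c w b
    have h2 := D5_34 a b c b w
    have h3 := D5_23 a b b c w
    linarith
  have zc : D5 a b c w c = 0 := by
    have h1 := D5_45 a b c w c
    have h2 := D5_34 a b c c w
    linarith
  rw [za, zb, zc, D5_45 a b c w x, D5_45 a b c w y, D5_45 a b c w z] at h
  linear_combination h

end D5

section
variable {P : El 3 → R5}

lemma dt_ne (hP : Pat P) {l : List ℕ} (hl : gd l = true) (h5 : l.length = 5) : dt P l ≠ 0 := by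
  rw [gd_iff] at hl
  match l, h5 with
  | [a, b, c, d, e], _ =>
    have h := hP.nz ![lab a, lab b, lab c, lab d, lab e] (by
      obtain ⟨h1, h2⟩ := hl
      apply DetS.inj5
      have h3 : [lab a, lab b, lab c, lab d, lab e] = [a, b, c, d, e].map lab := rfl
      rw [h3]
      exact h1.map_on fun x hx y hy hxy => lab_inj (h2 x hx) (h2 y hy) hxy)
    exact h

lemma dt_swap (p : List ℕ) (a b : ℕ) (q : List ℕ) (h5 : (p ++ a :: b :: q).length = 5) :
    dt P (p ++ a :: b :: q) = -dt P (p ++ b :: a :: q) := by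
  match p, q, h5 with
  | [], [x, y, z], _ => exact D5_12 _ _ _ _ _
  | [x], [y, z], _ => exact D5_23 _ _ _ _ _
  | [x, y], [z], _ => exact D5_34 _ _ _ _ _
  | [x, y, z], [], _ => exact D5_45 _ _ _ _ _
  | _ :: _ :: _ :: _ :: _, q, h => simp at h; omega

lemma sg_true {l : List ℕ} : sg P l = true ↔ 0 < dt P l := by
  classical
  unfold sg
  rw [decide_eq_true_iff]

lemma sg_false (hP : Pat P) {l : List ℕ} (hl : gd l = true) (h5 : l.length = 5) :
    sg P l = false ↔ dt P l < 0 := by
  classical
  unfold sg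
  rw [decide_eq_false_iff_not, not_lt]
  exact ⟨fun h => lt_of_le_of_ne h (dt_ne hP hl h5), fun h => h.le⟩

lemma swap (hP : Pat P) (p : List ℕ) (a b : ℕ) (q : List ℕ) (h1 : gd (p ++ a :: b :: q) = true)
    (h2 : (p ++ a :: b :: q).length = 5) :
    sg P (p ++ a :: b :: q) = !(sg P (p ++ b :: a :: q)) := by
  have hp : (p ++ a :: b :: q).Perm (p ++ b :: a :: q) :=
    List.Perm.append_left p (List.Perm.swap b a q)
  have h3 := dt_swap (P := P) p a b q h2
  cases h4 : sg P (p ++ b :: a :: q)
  · rw [sg_false hP (gd_perm hp h1) (by rw [← hp.length_eq]; exact h2)] at h4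
    rw [Bool.not_false, sg_true]
    linarith
  · rw [sg_true] at h4
    rw [Bool.not_true, sg_false hP h1 h2]
    linarith

/-- three term relations, signs -/
lemma gp (hP : Pat P) (a b c x y z w : ℕ) (h : gd [a, b, c, x, y, z, w] = true) (t : Bool) :
    ¬ ((sg P [a, b, c, x, y] == sg P [a, b, c, z, w]) = t ∧
      (sg P [a, b, c, x, z] == sg P [a, b, c, y, w]) = !t ∧
      (sg P [a, b, c, x, w] == sg P [a, b, c, y, z]) = t) := by
  have k1 : gd [a, b, c, x, y] = true := gd_sub h (by simp)
  have k2 : gd [a, b, c, z, w] = true := gd_sub h (by simp)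
  have k3 : gd [a, b, c, x, z] = true := gd_sub h (by simp)
  have k4 : gd [a, b, c, y, w] = true := gd_sub h (by simp)
  have k5 : gd [a, b, c, x, w] = true := gd_sub h (by simp)
  have k6 : gd [a, b, c, y, z] = true := gd_sub h (by simp)
  have key : ∀ {l m : List ℕ}, gd l = true → l.length = 5 → gd m = true → m.length = 5 →
      ∀ s : Bool, (sg P l == sg P m) = s → if s then 0 < dt P l * dt P m else
        dt P l * dt P m < 0 := by
    intro l m hl l5 hm m5 s hs
    cases h1 : sg P l <;> cases h2 : sg P m <;> rw [h1, h2] at hs <;> subst hs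
    · exact mul_pos_of_neg_of_neg ((sg_false hP hl l5).1 h1) ((sg_false hP hm m5).1 h2)
    · exact mul_neg_of_neg_of_pos ((sg_false hP hl l5).1 h1) (sg_true.1 h2)
    · exact mul_neg_of_pos_of_neg (sg_true.1 h1) ((sg_false hP hm m5).1 h2)
    · exact mul_pos (sg_true.1 h1) (sg_true.1 h2)
  have hgp := D5_gp (P (lab a)) (P (lab b)) (P (lab c)) (P (lab x)) (P (lab y)) (P (lab z))
    (P (lab w))
  rintro ⟨h1, h2, h3⟩
  have g1 := key k1 rfl k2 rfl t h1
  have g2 := key k3 rfl k4 rfl _ h2
  have g3 := key k5 rfl k6 rfl t h3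
  simp only [dt] at g1 g2 g3
  cases t
  · simp at g1 g2 g3
    linarith
  · simp at g1 g2 g3
    linarith

/-! ### Sorting -/

lemma insert_sign (hP : Pat P) (x : ℕ) : ∀ (t p : List ℕ), gd (p ++ x :: t) = true →
    (p ++ x :: t).length = 5 → t.Pairwise (· ≤ ·) →
    sg P (p ++ x :: t) = Bool.xor (cnt x t) (sg P (p ++ List.orderedInsert (· ≤ ·) x t))
  | [], p, _, _, _ => by simp [cnt]
  | h :: t, p, h1, h2, h3 => by
    have h4 := (List.pairwise_cons.1 h3)
    by_cases hx : x ≤ h
    · rw [List.orderedInsert_cons, if_pos hx]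
      rw [cnt_eq_false, Bool.false_xor]
      intro y hy
      rcases List.mem_cons.1 hy with rfl | hy
      · exact hx
      · exact hx.trans (h4.1 y hy)
    · have e1 : List.orderedInsert (· ≤ ·) x (h :: t) = h :: List.orderedInsert (· ≤ ·) x t := by
        rw [List.orderedInsert_cons, if_neg hx]
      have hp : (p ++ x :: h :: t).Perm ((p ++ [h]) ++ x :: t) := by
        rw [List.append_assoc]
        exact List.Perm.append_left p (List.Perm.swap h x t)
      have h5 := insert_sign hP x t (p ++ [h]) (gd_perm hp h1) (by rw [← hp.length_eq]; exact h2)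
        h4.2
      rw [e1, swap hP p x h t h1 h2]
      have e2 : p ++ h :: x :: t = (p ++ [h]) ++ x :: t := by simp
      rw [e2, h5]
      have e3 : (p ++ [h]) ++ List.orderedInsert (· ≤ ·) x t =
          p ++ h :: List.orderedInsert (· ≤ ·) x t := by simp
      rw [e3]
      have e4 : cnt x (h :: t) = !(cnt x t) := by
        have : Nat.blt h x = true := by
          rw [Nat.blt_eq]
          omega
        simp only [cnt, this, Bool.true_xor]
      rw [e4, Bool.not_xor]

lemma sort_sign (hP : Pat P) : ∀ (l p : List ℕ), gd (p ++ l) = true → (p ++ l).length = 5 →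
    sg P (p ++ l) = Bool.xor (par l) (sg P (p ++ List.insertionSort (· ≤ ·) l))
  | [], p, _, _ => by simp [par]
  | x :: t, p, h1, h2 => by
    have e1 : p ++ x :: t = (p ++ [x]) ++ t := by simp
    have h3 := sort_sign hP t (p ++ [x]) (by rw [← e1]; exact h1) (by rw [← e1]; exact h2)
    have hperm : (p ++ x :: t).Perm (p ++ x :: List.insertionSort (· ≤ ·) t) :=
      List.Perm.append_left p ((List.perm_insertionSort (· ≤ ·) t).symm.cons x)
    have h4 := insert_sign hP x (List.insertionSort (· ≤ ·) t) p (gd_perm hperm h1)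
      (by rw [← hperm.length_eq]; exact h2) (List.pairwise_insertionSort (· ≤ ·) t)
    have e2 : (p ++ [x]) ++ List.insertionSort (· ≤ ·) t =
        p ++ x :: List.insertionSort (· ≤ ·) t := by simp
    rw [e1, h3, e2, h4, List.insertionSort_cons, cnt_perm (List.perm_insertionSort (· ≤ ·) t)]
    simp only [par]
    cases par t <;> cases cnt x t <;>
      cases sg P (p ++ List.orderedInsert (· ≤ ·) x (List.insertionSort (· ≤ ·) t)) <;> rfl

/-- a sorted list with the same labels -/
lemma eq_sorted (hP : Pat P) {l m : List ℕ} (hl : gd l = true) (h5 : l.length = 5)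
    (hm : inc m = true) (hperm : l.Perm m) : sg P l = Bool.xor (par l) (sg P m) := by
  have h1 := sort_sign hP l [] hl h5
  rw [List.nil_append, List.nil_append] at h1
  have h2 : List.insertionSort (· ≤ ·) l = m := by
    refine List.Perm.eq_of_pairwise' (List.pairwise_insertionSort (· ≤ ·) l)
      ((inc_iff.1 hm).imp fun h => h.le) ((List.perm_insertionSort (· ≤ ·) l).trans hperm)
  rw [h1, h2]

end

end Pool.Agent.F32C
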