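import Pool.Agent.F32C.Pat3

/-!
# F32, machine theorem: homogeneity, edges, faces in terms of the numbers of the labels (helper80)
-/

set_option autoImplicit false

namespace Pool.Agent.F32C

open Pool.Agent.F32 Finset

/-! ### Order types -/

/-- comparison of two numbers: `0`, `1`, `2` for `<`, `=`, `>` -/
def cp (a b : ℕ) : ℕ := if a < b then 0 else if a = b then 1 else 2

/-- relative position: rows and indices -/
def codeA (a b : El 3) : ℕ :=
  match a.ri, b.ri with
  | some p, some q => 1 + (if p.1 = q.1 then 3 + cp p.2 q.2 else cp p.1 q.1)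
  | _, _ => 0

/-- relative position: columns -/
def codeB (a b : El 3) : ℕ :=
  match a.kk 1, b.kk 1 with
  | some p, some q => 1 + cp p q
  | _, _ => 0

/-- the two conditions of `SameT` for one pair of places -/
def Q (a b a' b' : El 3) : Prop :=
  (∀ p ∈ a.ri, ∀ q ∈ b.ri, ∀ p' ∈ a'.ri, ∀ q' ∈ b'.ri,
    (p.1 < q.1 ↔ p'.1 < q'.1) ∧ (p.1 = q.1 → (p.2 < q.2 ↔ p'.2 < q'.2))) ∧
  ∀ p ∈ a.kk 1, ∀ q ∈ b.kk 1, ∀ p' ∈ a'.kk 1, ∀ q' ∈ b'.kk 1, (p < q ↔ p' < q')

lemma cp_le (a b : ℕ) : cp a b ≤ 2 := by
  unfold cp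
  split_ifs <;> omega

lemma codeA_le (a b : El 3) : codeA a b ≤ 6 := by
  unfold codeA
  split
  · rename_i p q _ _
    have h1 := cp_le p.2 q.2
    have h2 := cp_le p.1 q.1
    split_ifs <;> omega
  · omega

lemma Q_of {a b a' b' : El 3} (hA : codeA a b = codeA a' b') (hB : codeB a b = codeB a' b') :
    Q a b a' b' ∧ Q b a b' a' := by
  have key : (∀ p ∈ a.ri, ∀ q ∈ b.ri, ∀ p' ∈ a'.ri, ∀ q' ∈ b'.ri,
      cp p.1 q.1 = cp p'.1 q'.1 ∧ (p.1 = q.1 → cp p.2 q.2 = cp p'.2 q'.2)) := by
    intro p hp q hq p' hp' q' hq'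
    rw [Option.mem_def] at hp hq hp' hq'
    unfold codeA at hA
    rw [hp, hq, hp', hq'] at hA
    simp only at hA
    have h1 := cp_le p.1 q.1
    have h2 := cp_le p'.1 q'.1
    have h3 := cp_le p.2 q.2
    have h4 := cp_le p'.2 q'.2
    by_cases e1 : p.1 = q.1 <;> by_cases e2 : p'.1 = q'.1
    · rw [if_pos e1, if_pos e2] at hA
      refine ⟨?_, fun _ => by omega⟩
      unfold cp
      rw [e1, e2]
      simp
    · rw [if_pos e1, if_neg e2] at hA
      omega
    · rw [if_neg e1, if_pos e2] at hA
      omega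
    · rw [if_neg e1, if_neg e2] at hA
      exact ⟨by omega, fun h => absurd h e1⟩
  have keyB : ∀ p ∈ a.kk 1, ∀ q ∈ b.kk 1, ∀ p' ∈ a'.kk 1, ∀ q' ∈ b'.kk 1,
      cp p q = cp p' q' := by
    intro p hp q hq p' hp' q' hq'
    rw [Option.mem_def] at hp hq hp' hq'
    unfold codeB at hB
    rw [hp, hq, hp', hq'] at hB
    simp only at hB
    omega
  have hcp : ∀ {x y x' y' : ℕ}, cp x y = cp x' y' →
      (x < y ↔ x' < y') ∧ (x = y ↔ x' = y') ∧ (y < x ↔ y' < x') := by
    intro x y x' y' h
    unfold cp at h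
    split_ifs at h <;> refine ⟨?_, ?_, ?_⟩ <;> constructor <;> intro _ <;> omega
  refine ⟨⟨fun p hp q hq p' hp' q' hq' => ?_, fun p hp q hq p' hp' q' hq' => ?_⟩,
    ⟨fun p hp q hq p' hp' q' hq' => ?_, fun p hp q hq p' hp' q' hq' => ?_⟩⟩
  · obtain ⟨h1, h2⟩ := key p hp q hq p' hp' q' hq'
    exact ⟨(hcp h1).1, fun h => (hcp (h2 h)).1⟩
  · exact (hcp (keyB p hp q hq p' hp' q' hq')).1
  · obtain ⟨h1, h2⟩ := key q hq p hp q' hq' p' hp'
    exact ⟨(hcp h1).2.2, fun h => (hcp (h2 h.symm)).2.2⟩
  · exact (hcp (keyB q hq p hp q' hq' p' hp')).2.2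

lemma Q_refl (a a' : El 3) : Q a a a' a' := by
  refine ⟨fun p hp q hq p' hp' q' hq' => ?_, fun p hp q hq p' hp' q' hq' => ?_⟩
  · rw [Option.mem_def] at hp hq hp' hq'
    have e1 : p = q := Option.some.inj (hp.symm.trans hq)
    have e2 : p' = q' := Option.some.inj (hp'.symm.trans hq')
    subst e1
    subst e2
    simp
  · rw [Option.mem_def] at hp hq hp' hq'
    have e1 : p = q := Option.some.inj (hp.symm.trans hq)
    have e2 : p' = q' := Option.some.inj (hp'.symm.trans hq')
    subst e1
    subst e2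
    simp

/-- the relative position of two numbers, from a table -/
def pc (a b : ℕ) : ℕ :=
  Nat.land (Nat.shiftRight
    14865158046110436259974807272340159016294853253252620901867556248268612716062476476228119184730511678630693925471227594459902086134753769169471401534721336456371905495047301091226558677936941226568850568183825808103274745941453871654220364492844105911404658634259923212880984034875931457242931107578466394992655631394138760556554119072329115788543511470624168158237092211277538307383744756196170453587799416865938473072512363752391233701321375659831729326742485824759249355227613979278784531426027244733901689103317508213254787085634540558508614589597055612475367685566093875912779824016765661764180102979279857785524332399845237710639368162902263154598368346801167558129823506267835852978001385195474895655144855910391832602440797882084222595602719499423185667540593169426397614057454817374434039109823549006367030918580819401654533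
    (Nat.mul 6 (Nat.add (Nat.mul 22 a) b))) 63

/-- the type, from a table -/
def tyN (a : ℕ) : ℕ := Nat.land (Nat.shiftRight 16126164860928 (Nat.mul 2 a)) 3

lemma pc_eq : ∀ a < 22, ∀ b < 22, pc a b = codeA (lab a) (lab b) + 8 * codeB (lab a) (lab b) := by
  decide +kernel

lemma tyN_eq : ∀ a < 22, tyN a = (lab a).ty := by
  decide +kernel

/-- `a` has the same position relative to the labels of `l` as `b` relative to the labels of `m` -/
def sim1 (a b : ℕ) : List ℕ → List ℕ → Bool
  | [], [] => true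
  | c :: l, d :: m => Nat.beq (pc a c) (pc b d) && sim1 a b l m
  | _, _ => false

/-- two lists of labels have the same order type (the same types of points, the same relative positions) -/
def sim : List ℕ → List ℕ → Bool
  | [], [] => true
  | a :: l, b :: m => Nat.beq (tyN a) (tyN b) && (sim1 a b l m && sim l m)
  | _, _ => false

/-- homogeneity -/
lemma hom {P : El 3 → R5} (hP : Pat P) (l m : List ℕ) (hl : gd l = true) (hm : gd m = true)
    (h5 : l.length = 5) (h5' : m.length = 5) (h : sim l m = true) : sg P l = sg P m := by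
  rw [gd_iff] at hl hm
  match l, h5, m, h5' with
  | [a, b, c, d, e], _, [a', b', c', d', e'], _ =>
    simp only [sim, sim1, Bool.and_eq_true, Nat.beq_eq, and_true] at h
    have hl2 := hl.2
    have hm2 := hm.2
    simp only [List.mem_cons, List.not_mem_nil, or_false, forall_eq_or_imp, forall_eq] at hl2 hm2
    obtain ⟨la, lb, lc, ld, le⟩ := hl2
    obtain ⟨ma, mb, mc, md, me⟩ := hm2
    have hQ : ∀ {x y x' y' : ℕ}, x < 22 → y < 22 → x' < 22 → y' < 22 → pc x y = pc x' y' →
        Q (lab x) (lab y) (lab x') (lab y') ∧ Q (lab y) (lab x) (lab y') (lab x') := by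
      intro x y x' y' hx hy hx' hy' h
      rw [pc_eq x hx y hy, pc_eq x' hx' y' hy'] at h
      have h1 := codeA_le (lab x) (lab y)
      have h2 := codeA_le (lab x') (lab y')
      exact Q_of (by omega) (by omega)
    obtain ⟨t1, ⟨p1, p2, p3, p4⟩, t2, ⟨p5, p6, p7⟩, t3, ⟨p8, p9⟩, t4, p10, t5⟩ := h
    have q1 := hQ la lb ma mb p1
    have q2 := hQ la lc ma mc p2
    have q3 := hQ la ld ma md p3
    have q4 := hQ la le ma me p4
    have q5 := hQ lb lc mb mc p5
    have q6 := hQ lb ld mb md p6
    have q7 := hQ lb le mb me p7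
    have q8 := hQ lc ld mc md p8
    have q9 := hQ lc le mc me p9
    have q10 := hQ ld le md me p10
    rw [tyN_eq _ la, tyN_eq _ ma] at t1
    rw [tyN_eq _ lb, tyN_eq _ mb] at t2
    rw [tyN_eq _ lc, tyN_eq _ mc] at t3
    rw [tyN_eq _ ld, tyN_eq _ md] at t4
    rw [tyN_eq _ le, tyN_eq _ me] at t5
    have hall : ∀ i j : Fin 5, Q ((![lab a, lab b, lab c, lab d, lab e] : Fin 5 → El 3) i)
        ((![lab a, lab b, lab c, lab d, lab e] : Fin 5 → El 3) j)
        ((![lab a', lab b', lab c', lab d', lab e'] : Fin 5 → El 3) i)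
        ((![lab a', lab b', lab c', lab d', lab e'] : Fin 5 → El 3) j) := by
      intro i j
      fin_cases i <;> fin_cases j <;>
        first
        | exact Q_refl _ _
        | exact q1.1
        | exact q1.2
        | exact q2.1
        | exact q2.2
        | exact q3.1
        | exact q3.2
        | exact q4.1
        | exact q4.2
        | exact q5.1
        | exact q5.2
        | exact q6.1
        | exact q6.2
        | exact q7.1
        | exact q7.2
        | exact q8.1
        | exact q8.2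
        | exact q9.1
        | exact q9.2
        | exact q10.1
        | exact q10.2
    have hS : SameT 1 ![lab a, lab b, lab c, lab d, lab e] ![lab a', lab b', lab c', lab d', lab e'] := by
      refine ⟨?_, fun i j => (hall i j).1, fun i j => (hall i j).2⟩
      intro i
      fin_cases i
      · exact t1
      · exact t2
      · exact t3
      · exact t4
      · exact t5
    have h1 := hP.hom _ _ hS
    have h2 : (0 < dt P [a, b, c, d, e] ↔ 0 < dt P [a', b', c', d', e']) := h1
    rw [← sg_true, ← sg_true] at h2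
    exact Bool.eq_iff_iff.2 h2

/-! ### Edges and faces -/

/-- number of the related pairs: `x` in `m` with `x < 9` and `x + 12` in `l` -/
def cP (l : List ℕ) : List ℕ → ℕ
  | [] => 0
  | x :: m => Nat.add (bif (Nat.blt x 9 && !(nin (Nat.add x 12) l)) then 1 else 0) (cP l m)

/-- bounded density -/
def bdd (l : List ℕ) : Bool := Nat.ble (Nat.add (cP l l) (bif nin 10 l then 0 else 1)) 1

lemma cP_eq (l m : List ℕ) :
    cP l m = (m.filter fun x => Nat.blt x 9 && !(nin (Nat.add x 12) l)).length := by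
  induction m with
  | nil => rfl
  | cons x m ih =>
    have e1 : cP l (x :: m) = (bif (Nat.blt x 9 && !(nin (Nat.add x 12) l)) then 1 else 0) + cP l m :=
      rfl
    rw [e1, ih]
    cases h : (Nat.blt x 9 && !(nin (Nat.add x 12) l))
    · rw [List.filter_cons_of_neg (by simpa using h)]
      simp
    · have e2 : List.filter (fun x => Nat.blt x 9 && !(nin (Nat.add x 12) l)) (x :: m) =
          x :: List.filter (fun x => Nat.blt x 9 && !(nin (Nat.add x 12) l)) m :=
        List.filter_cons_of_pos h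
      rw [e2, List.length_cons]
      exact Nat.add_comm _ _

lemma bdd_sound {l : List ℕ} (h : bdd l = true) (S : Finset (El 3))
    (hS : ∀ n < 22, lab n ∈ S ↔ n ∈ l) : Bdd 1 S := by
  classical
  have hX : ∀ r i : Fin 3, (El.X r i ∈ S ↔ 3 * (r : ℕ) + i ∈ l) := by
    intro r i
    rw [← hS _ (by omega)]
    have : lab (3 * (r : ℕ) + i) = .X r i := lab_nl (.X r i)
    rw [this]
  have hY : ∀ r i : Fin 3, (El.Y r i ∈ S ↔ 12 + 3 * (r : ℕ) + i ∈ l) := by
    intro r i
    rw [← hS _ (by omega)]
    have : lab (12 + 3 * (r : ℕ) + i) = .Y r i := lab_nl (.Y r i)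
    rw [this]
  have hC : El.C 1 ∈ S ↔ 10 ∈ l := by
    rw [← hS 10 (by omega)]
    have : lab 10 = .C 1 := by decide
    rw [this]
  unfold bdd at h
  rw [Nat.ble_eq] at h
  have h' : cP l l + (bif nin 10 l then 0 else 1) ≤ 1 := h
  unfold Bdd
  have h1 : ((univ : Finset (Fin 3 × Fin 3)).filter fun p =>
      El.X p.1 p.2 ∈ S ∧ El.Y p.1 p.2 ∈ S).card ≤ cP l l := by
    rw [cP_eq]
    refine le_trans ?_ (List.toFinset_card_le _)
    refine Finset.card_le_card_of_injOn (fun p => 3 * (p.1 : ℕ) + p.2) ?_ ?_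
    · intro p hp
      have hp' := (Finset.mem_filter.1 hp).2
      rw [hX, hY] at hp'
      have h2 : 3 * (p.1 : ℕ) + p.2 ∈
          (l.filter fun x => Nat.blt x 9 && !(nin (Nat.add x 12) l)).toFinset := by
        rw [List.mem_toFinset, List.mem_filter]
        refine ⟨hp'.1, ?_⟩
        rw [Bool.and_eq_true, Nat.blt_eq]
        refine ⟨by omega, ?_⟩
        have h3 : ¬ (nin (Nat.add (3 * (p.1 : ℕ) + p.2) 12) l = true) := by
          rw [nin_iff, not_not]
          have e1 : Nat.add (3 * (p.1 : ℕ) + p.2) 12 = 12 + 3 * (p.1 : ℕ) + p.2 := by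
            change 3 * (p.1 : ℕ) + p.2 + 12 = _
            omega
          rw [e1]
          exact hp'.2
        simpa using h3
      exact h2
    · intro p _ q _ hpq
      have hpq' : 3 * (p.1 : ℕ) + p.2 = 3 * (q.1 : ℕ) + q.2 := hpq
      have hp2 := p.2.isLt
      have hq2 := q.2.isLt
      exact Prod.ext (Fin.ext (by omega)) (Fin.ext (by omega))
  have h2 : (if El.C 1 ∈ S then 1 else 0) = (bif nin 10 l then 0 else 1) := by
    cases h3 : nin 10 l
    · have h4 : 10 ∈ l := by
        by_contra h4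
        rw [← nin_iff, h3] at h4
        exact Bool.false_ne_true h4
      rw [if_pos (hC.2 h4)]
      rfl
    · have h4 : 10 ∉ l := nin_iff.1 h3
      rw [if_neg (fun h5 => h4 (hC.1 h5))]
      rfl
  rw [h2]
  omega

/-- the edge condition in terms of numbers -/
def edN (u v a b c d : ℕ) : Bool :=
  (Nat.blt u 9 && ((Nat.ble 9 v && Nat.blt v 12) || (Nat.beq v (Nat.add u 12) ||
    (Nat.ble 12 v && (Nat.blt v 21 && (!(Nat.beq (Nat.div u 3) (Nat.div (Nat.sub v 12) 3)) &&
      bdd [u, v, a, b, c, d])))))) || (Nat.beq u 10 && (Nat.ble 12 v && Nat.blt v 21))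

lemma lab_X {u : ℕ} (h : u < 9) : ∃ r i : Fin 3, lab u = .X r i ∧ u = 3 * (r : ℕ) + i := by
  refine ⟨Fin.ofNat 3 (u / 3), Fin.ofNat 3 (u % 3), ?_, ?_⟩
  · unfold lab
    rw [if_pos h]
  · simp only [Fin.val_ofNat]
    omega

lemma lab_C {u : ℕ} (h : 9 ≤ u) (h' : u < 12) : ∃ k : Fin 3, lab u = .C k := by
  refine ⟨Fin.ofNat 3 (u - 9), ?_⟩
  unfold lab
  rw [if_neg (by omega), if_pos h']

lemma lab_Y {u : ℕ} (h : 12 ≤ u) (h' : u < 21) :
    ∃ r i : Fin 3, lab u = .Y r i ∧ u = 12 + 3 * (r : ℕ) + i := by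
  refine ⟨Fin.ofNat 3 ((u - 12) / 3), Fin.ofNat 3 ((u - 12) % 3), ?_, ?_⟩
  · unfold lab
    rw [if_neg (by omega), if_neg (by omega), if_pos h']
  · simp only [Fin.val_ofNat]
    omega

lemma not_pos4_of {P : El 3 → R5} (hP : Pat P) {u v a b c d : ℕ}
    (h : gd [u, v, a, b, c, d] = true) (he : edN u v a b c d = true) :
    ¬ Circ.Pos4 (P (lab u)) (P (lab v)) (P (lab a)) (P (lab b)) (P (lab c)) (P (lab d)) := by
  have hlt := (gd_iff.1 h).2
  simp only [List.mem_cons, List.not_mem_nil, or_false, forall_eq_or_imp, forall_eq] at hlt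
  obtain ⟨lu, lv, la, lb, lc, ld⟩ := hlt
  simp only [edN, Bool.or_eq_true, Bool.and_eq_true, Nat.blt_eq, Nat.ble_eq, Nat.beq_eq,
    Bool.not_eq_true', beq_false_iff] at he
  rcases he with ⟨hu, ⟨hv1, hv2⟩ | hv | ⟨hv1, hv2, hv3, hv4⟩⟩ | ⟨hu, hv1, hv2⟩
  · obtain ⟨r, i, e1, -⟩ := lab_X hu
    obtain ⟨k, e2⟩ := lab_C hv1 hv2
    rw [e1, e2]
    exact hP.exc r i k _ _ _ _
  · obtain ⟨r, i, e1, e1'⟩ := lab_X hu
    have hv' : v = u + 12 := hv
    have e2 : lab v = .Y r i := by
      have h1 : v = nl (.Y r i) := by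
        rw [hv', e1']
        simp only [nl]
        omega
      rw [h1, lab_nl]
    rw [e1, e2]
    exact hP.exy r i _ _ _ _
  · obtain ⟨r, i, e1, e1'⟩ := lab_X hu
    obtain ⟨s, j, e2, e2'⟩ := lab_Y hv1 hv2
    have hrs : r ≠ s := by
      intro hrs
      apply hv3
      change u / 3 = (v - 12) / 3
      rw [e1', e2', hrs]
      omega
    have hmem : ∀ n < 22, (lab n ∈ ({lab u, lab v, lab a, lab b, lab c, lab d} : Finset (El 3)) ↔
        n ∈ [u, v, a, b, c, d]) := by
      intro n hn
      simp only [Finset.mem_insert, Finset.mem_singleton, List.mem_cons, List.not_mem_nil, or_false]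
      constructor
      · rintro (h1 | h1 | h1 | h1 | h1 | h1)
        · exact Or.inl (lab_inj hn lu h1)
        · exact Or.inr (Or.inl (lab_inj hn lv h1))
        · exact Or.inr (Or.inr (Or.inl (lab_inj hn la h1)))
        · exact Or.inr (Or.inr (Or.inr (Or.inl (lab_inj hn lb h1))))
        · exact Or.inr (Or.inr (Or.inr (Or.inr (Or.inl (lab_inj hn lc h1)))))
        · exact Or.inr (Or.inr (Or.inr (Or.inr (Or.inr (lab_inj hn ld h1)))))
      · rintro (h1 | h1 | h1 | h1 | h1 | h1) <;> rw [h1] <;> simp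
    have hcard : ({lab u, lab v, lab a, lab b, lab c, lab d} : Finset (El 3)).card = 6 := by
      have h1 : ({lab u, lab v, lab a, lab b, lab c, lab d} : Finset (El 3)) =
          ([u, v, a, b, c, d].map lab).toFinset := by
        simp
      rw [h1, List.toFinset_card_of_nodup]
      · rfl
      · exact (gd_iff.1 h).1.map_on fun x hx y hy hxy =>
          lab_inj ((gd_iff.1 h).2 x hx) ((gd_iff.1 h).2 y hy) hxy
    have hB := bdd_sound hv4 _ hmem
    rw [e1, e2] at hcard hB ⊢
    exact hP.es r i s j hrs _ _ _ _ hcard hB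
  · obtain ⟨r, i, e2, -⟩ := lab_Y hv1 hv2
    have e1 : lab u = .C 1 := by
      rw [hu]
      decide
    rw [e1, e2]
    exact hP.ecy r i _ _ _ _

/-- edges, signs -/
lemma ed {P : El 3 → R5} (hP : Pat P) {u v a b c d : ℕ}
    (h : gd [u, v, a, b, c, d] = true) (he : edN u v a b c d = true) (s : Bool) :
    ¬ (sg P [u, v, b, c, d] = s ∧ sg P [u, v, a, c, d] = !s ∧ sg P [u, v, a, b, d] = s ∧
      sg P [u, v, a, b, c] = !s) := by
  have h0 := not_pos4_of hP h he
  have k1 : gd [u, v, b, c, d] = true := gd_sub h (by simp)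
  have k2 : gd [u, v, a, c, d] = true := gd_sub h (by simp)
  have k3 : gd [u, v, a, b, d] = true := gd_sub h (by simp)
  have k4 : gd [u, v, a, b, c] = true := gd_sub h (by simp)
  rintro ⟨h1, h2, h3, h4⟩
  apply h0
  cases s
  · right
    rw [sg_false hP k1 rfl] at h1
    rw [Bool.not_false, sg_true] at h2
    rw [sg_false hP k3 rfl] at h3
    rw [Bool.not_false, sg_true] at h4
    exact ⟨h1, h2, h3, h4⟩
  · left
    rw [sg_true] at h1
    rw [Bool.not_true, sg_false hP k2 rfl] at h2
    rw [sg_true] at h3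
    rw [Bool.not_true, sg_false hP k4 rfl] at h4
    exact ⟨h1, h2, h3, h4⟩

/-- faces, signs -/
lemma tr {P : El 3 → R5} (hP : Pat P) {u a b c : ℕ} (hu : u < 9)
    (h : gd [u, 10, u + 12, a, b, c] = true) (s : Bool) :
    ¬ (sg P [u, 10, u + 12, b, c] = s ∧ sg P [u, 10, u + 12, a, c] = !s ∧
      sg P [u, 10, u + 12, a, b] = s) := by
  obtain ⟨r, i, e1, e1'⟩ := lab_X hu
  have e2 : lab (u + 12) = .Y r i := by
    have h1 : u + 12 = nl (.Y r i) := by
      rw [e1']
      simp only [nl]
      omega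
    rw [h1, lab_nl]
  have e3 : lab 10 = .C 1 := by decide
  have h0 := hP.tri r i (lab a) (lab b) (lab c)
  rw [← e1, ← e2, ← e3] at h0
  have k1 : gd [u, 10, u + 12, b, c] = true := gd_sub h (by simp)
  have k2 : gd [u, 10, u + 12, a, c] = true := gd_sub h (by simp)
  have k3 : gd [u, 10, u + 12, a, b] = true := gd_sub h (by simp)
  rintro ⟨h1, h2, h3⟩
  apply h0
  cases s
  · right
    rw [sg_false hP k1 rfl] at h1
    rw [Bool.not_false, sg_true] at h2
    rw [sg_false hP k3 rfl] at h3
    exact ⟨h1, h2, h3⟩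
  · left
    rw [sg_true] at h1
    rw [Bool.not_true, sg_false hP k2 rfl] at h2
    rw [sg_true] at h3
    exact ⟨h1, h2, h3⟩

end Pool.Agent.F32C
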